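import Pool.Agent.Reg66.Closed
import Pool.Agent.CSH.LiftAll

set_option autoImplicit false

/-!
# Achronal lifts of `h + e g` for univalent harmonic maps `h + conj g` of the disc
-/

namespace Reg66

open Complex Metric Set Filter Topology ComplexConjugate AllN24 Pool.Agent.CSH Pool.Agent.HU85
open scoped Nat

theorem cf_zero (f : ℂ → ℂ) : cf 0 f = f 0 := by simp [cf]

theorem cf_one (f : ℂ → ℂ) : cf 1 f = deriv f 0 := by simp [cf]

/-- coefficients are linear -/
theorem cf_smul (n : ℕ) (c : ℂ) (f : ℂ → ℂ) : cf n (fun z => c * f z) = c * cf n f := by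
  unfold cf
  rw [iteratedDeriv_const_mul_field c f, mul_div_assoc]

/-- polynomial approximation with exact coefficients -/
theorem poly_approx {h g : ℂ → ℂ} (H : HarmU h g) (m : ℕ) {r : ℝ} (hr0 : 0 < r) (hr1 : r < 1) :
    ∃ (R : ℝ) (p q : Polynomial ℂ), Pool.CSH.Uni p q R ∧
      ∀ k : ℕ, 1 ≤ k → k ≤ m → (p - q).coeff k = (r : ℂ) ^ k * (cf k h - cf k g) := by
  obtain ⟨ρ, hρr, hρ1⟩ := exists_between hr1
  have hρ0 : 0 < ρ := hr0.trans hρr
  have hsub : closedBall (0 : ℂ) ρ ⊆ ball (0 : ℂ) 1 := closedBall_subset_ball hρ1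
  obtain ⟨c, hc, hlow⟩ := global_lower H hρ1
  obtain ⟨c1, hc1, hgap⟩ := gap H hρ0.le hρ1
  set ε : ℝ := min c c1 / 3 with hε
  have hmin : 0 < min c c1 := lt_min hc hc1
  have hε0 : 0 < ε := by rw [hε]; positivity
  have hεc : 3 * ε ≤ c := by rw [hε]; have := min_le_left c c1; linarith
  have hεc1 : 3 * ε ≤ c1 := by rw [hε]; have := min_le_right c c1; linarith
  obtain ⟨p, hp0, hp1, hp⟩ := exists_polyN m H.hd hρ1 hε0
  obtain ⟨q, hq0, hq1, hq⟩ := exists_polyN m H.gd hρ1 hε0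
  -- the sense preserving property of `p + conj q`
  have hlt : ∀ z ∈ closedBall (0 : ℂ) ρ, ‖q.derivative.eval z‖ < ‖p.derivative.eval z‖ := by
    intro z hz
    have h1 := hp z hz
    have h2 := hq z hz
    have h3 := hgap z hz
    have h4 : ‖deriv h z‖ ≤ ‖p.derivative.eval z‖ + ‖p.derivative.eval z - deriv h z‖ := by
      calc ‖deriv h z‖ = ‖p.derivative.eval z - (p.derivative.eval z - deriv h z)‖ := by
            congr 1; ring
        _ ≤ _ := norm_sub_le _ _
    have h5 : ‖q.derivative.eval z‖ ≤ ‖deriv g z‖ + ‖q.derivative.eval z - deriv g z‖ := by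
      calc ‖q.derivative.eval z‖ = ‖deriv g z + (q.derivative.eval z - deriv g z)‖ := by
            congr 1; ring
        _ ≤ _ := norm_add_le _ _
    linarith
  -- Lipschitz bounds for the differences
  have hlip : ∀ (k : ℂ → ℂ) (u : Polynomial ℂ), DifferentiableOn ℂ k (ball 0 1) →
      (∀ z ∈ closedBall (0 : ℂ) ρ, ‖u.derivative.eval z - deriv k z‖ < ε) →
      ∀ z ∈ closedBall (0 : ℂ) ρ, ∀ w ∈ closedBall (0 : ℂ) ρ,
        ‖(u.eval z - k z) - (u.eval w - k w)‖ ≤ ε * ‖z - w‖ := by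
    intro k u hk hu z hz w hw
    have hkd : ∀ y ∈ closedBall (0 : ℂ) ρ, HasDerivAt (fun y => u.eval y - k y)
        (u.derivative.eval y - deriv k y) y := by
      intro y hy
      exact (u.hasDerivAt y).sub
        ((hk.differentiableAt (isOpen_ball.mem_nhds (hsub hy))).hasDerivAt)
    have h1 := Convex.norm_image_sub_le_of_norm_deriv_le (𝕜 := ℂ)
      (f := fun y => u.eval y - k y) (C := ε) (s := closedBall (0 : ℂ) ρ) (x := w) (y := z)
      (fun y hy => (hkd y hy).differentiableAt)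
      (fun y hy => by rw [(hkd y hy).deriv]; exact (hu y hy).le)
      (convex_closedBall _ _) hw hz
    exact h1
  have hinj : InjOn (fun z => p.eval z + conj (q.eval z)) (closedBall (0 : ℂ) ρ) := by
    intro z hz w hw hzw
    by_contra hne
    have hpos : 0 < ‖z - w‖ := norm_pos_iff.mpr (sub_ne_zero.mpr hne)
    have h1 := hlow z hz w hw
    have h2 := hlip h p H.hd hp z hz w hw
    have h3 := hlip g q H.gd hq z hz w hw
    have h4 : p.eval z + conj (q.eval z) = p.eval w + conj (q.eval w) := hzw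
    have e1 : (h z + conj (g z)) - (h w + conj (g w))
        = -(((p.eval z - h z) - (p.eval w - h w))
          + conj ((q.eval z - g z) - (q.eval w - g w))) := by
      simp only [map_sub]
      linear_combination h4
    have h5 : ‖(h z + conj (g z)) - (h w + conj (g w))‖ ≤ ε * ‖z - w‖ + ε * ‖z - w‖ := by
      rw [e1, norm_neg]
      refine (norm_add_le _ _).trans ?_
      rw [Complex.norm_conj]
      exact add_le_add h2 h3
    nlinarith
  -- dilate
  have hR : 1 < ρ / r := by rw [lt_div_iff₀ hr0]; linarith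
  have hmaps : ∀ z ∈ ball (0 : ℂ) (ρ / r), (r : ℂ) * z ∈ closedBall (0 : ℂ) ρ := by
    intro z hz
    have h1 : ‖z‖ < ρ / r := by simpa using hz
    rw [lt_div_iff₀ hr0] at h1
    simp only [mem_closedBall, dist_zero_right, norm_mul, Complex.norm_real, Real.norm_eq_abs,
      abs_of_pos hr0]
    nlinarith
  have hrC : (r : ℂ) ≠ 0 := by exact_mod_cast hr0.ne'
  have hcf : ∀ (u : Polynomial ℂ) (k : ℕ),
      (u.comp (Polynomial.C (r : ℂ) * Polynomial.X)).coeff k = u.coeff k * (r : ℂ) ^ k := by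
    intro u k
    exact Polynomial.comp_C_mul_X_coeff
  refine ⟨ρ / r, p.comp (Polynomial.C (r : ℂ) * Polynomial.X),
    q.comp (Polynomial.C (r : ℂ) * Polynomial.X), ⟨hR, ?_, ?_⟩, ?_⟩
  · intro z hz w hw hzw
    have h1 := hinj (hmaps z hz) (hmaps w hw) (by
      have h2 : Pool.CSH.ff (p.comp (Polynomial.C (r : ℂ) * Polynomial.X))
        (q.comp (Polynomial.C (r : ℂ) * Polynomial.X)) z = Pool.CSH.ff
        (p.comp (Polynomial.C (r : ℂ) * Polynomial.X))
        (q.comp (Polynomial.C (r : ℂ) * Polynomial.X)) w := hzw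
      unfold Pool.CSH.ff at h2
      simpa using h2)
    exact mul_left_cancel₀ hrC h1
  · intro z hz
    have h1 := hlt _ (hmaps z hz)
    simp only [Polynomial.derivative_comp, Polynomial.derivative_C_mul,
      Polynomial.derivative_X, mul_one, Polynomial.eval_mul, Polynomial.eval_C,
      Polynomial.eval_comp, Polynomial.eval_X, norm_mul]
    exact mul_lt_mul_of_pos_left h1 (norm_pos_iff.mpr hrC)
  · intro k hk hkm
    rw [Polynomial.coeff_sub, hcf, hcf, hp1 k hk hkm, hq1 k hk hkm]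
    unfold cf
    ring

/-- approximate lifts of `h - g` -/
theorem lift_approx {h g : ℂ → ℂ} (H : HarmU h g) (m : ℕ) {r : ℝ} (hr0 : 0 < r) (hr1 : r < 1) :
    ∃ L F G R : ℂ → ℂ, AchLift L F G R ∧ L 0 = 0 ∧
      ∀ k : ℕ, 1 ≤ k → k ≤ m → cf k L = (r : ℂ) ^ k * (cf k h - cf k g) := by
  obtain ⟨ρ, p, q, hU, hpq⟩ := poly_approx H m hr0 hr1
  obtain ⟨L, F, G, R, hA, hc⟩ := Pool.CSH.lift_all p q ρ hU m
  have hd : deriv (fun z => L z - L 0) = deriv L := by
    funext z
    simp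
  refine ⟨fun z => L z - L 0, F, G, R, ⟨hA.dL.sub_const _, hA.dF, hA.dG, hA.dR, ?_, ?_, hA.hR, ?_,
    ?_⟩, by simp, ?_⟩
  · intro z hz
    rw [hd]
    exact hA.hF z hz
  · intro z hz
    rw [hd]
    exact hA.hG z hz
  · intro z hz
    rw [hd]
    exact hA.hL z hz
  · intro x hx y hy hxy
    have := hA.hK x hx y hy hxy
    unfold K at this ⊢
    have e : (L x - L 0 - (L y - L 0)) = L x - L y := by ring
    rw [e]
    exact this
  · intro k hk hkm
    rw [← hpq k hk hkm, ← hc k hk hkm]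
    obtain ⟨j, rfl⟩ : ∃ j, k = j + 1 := ⟨k - 1, by omega⟩
    unfold cf
    rw [iteratedDeriv_succ', iteratedDeriv_succ', hd]

/-- the lift of `h - g` -/
theorem lift_sub {h g : ℂ → ℂ} (H : HarmU h g) (h0 : h 0 = 0) (g0 : g 0 = 0) :
    ∃ F G R : ℂ → ℂ, Nrm (fun z => (h z - g z) / ((‖deriv h 0 - deriv g 0‖ : ℝ) : ℂ)) F G R := by
  have hb0 : (0 : ℂ) ∈ ball (0 : ℂ) 1 := by simp
  set D : ℂ := deriv h 0 - deriv g 0 with hD
  have hD0 : 0 < ‖D‖ := by
    have h1 := H.lt 0 hb0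
    have h2 := norm_sub_norm_le (deriv h 0) (deriv g 0)
    linarith
  have hDc : ((‖D‖ : ℝ) : ℂ) ≠ 0 := by exact_mod_cast hD0.ne'
  set s : ℕ → ℝ := fun k => 1 - 1 / ((k : ℝ) + 2) with hs
  have hs0 : ∀ k, 0 < s k := by
    intro k
    simp only [hs]
    have : (1 : ℝ) / ((k : ℝ) + 2) < 1 := by
      rw [div_lt_one (by positivity)]
      have : (0 : ℝ) ≤ k := Nat.cast_nonneg k
      linarith
    linarith
  have hs1 : ∀ k, s k < 1 := by
    intro k
    simp only [hs]
    have : (0 : ℝ) < 1 / ((k : ℝ) + 2) := by positivity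
    linarith
  have hslim : Tendsto (fun k => (s k : ℂ)) atTop (𝓝 1) := by
    have h1 : Tendsto (fun k : ℕ => 1 / ((k : ℝ) + 2)) atTop (𝓝 0) := by
      have := (tendsto_const_div_atTop_nhds_zero_nat (1 : ℝ)).comp (tendsto_add_atTop_nat 2)
      refine this.congr fun k => ?_
      simp
    have h2 : Tendsto s atTop (𝓝 (1 - 0)) := tendsto_const_nhds.sub h1
    rw [sub_zero] at h2
    have h3 : Tendsto (fun k => (s k : ℂ)) atTop (𝓝 ((1 : ℝ) : ℂ)) :=
      (Complex.continuous_ofReal.tendsto 1).comp h2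
    rwa [Complex.ofReal_one] at h3
  have key : ∀ k : ℕ, ∃ L F G R : ℂ → ℂ, Nrm L F G R ∧ ∀ j : ℕ, 1 ≤ j → j ≤ k + 1 →
      cf j L = (s k : ℂ) ^ j * (cf j h - cf j g) / ((s k * ‖D‖ : ℝ) : ℂ) := by
    intro k
    obtain ⟨L, F, G, R, hA, hL0, hc⟩ := lift_approx H (k + 1) (hs0 k) (hs1 k)
    obtain ⟨F', G', R', hN⟩ := normalise hA hL0
    refine ⟨_, F', G', R', hN, ?_⟩
    intro j hj hjk
    have e1 : ‖deriv L 0‖ = s k * ‖D‖ := by
      have := hc 1 le_rfl (by omega)
      rw [cf_one, cf_one, cf_one, pow_one] at this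
      rw [this, norm_mul, Complex.norm_real, Real.norm_of_nonneg (hs0 k).le]
    have e2 : (fun z => L z / ((‖deriv L 0‖ : ℝ) : ℂ)) =
        fun z => (((‖deriv L 0‖ : ℝ) : ℂ))⁻¹ * L z := by
      funext z
      rw [div_eq_inv_mul]
    rw [e2, cf_smul, hc j hj hjk, e1, div_eq_inv_mul]
  choose L F G R hN hc using key
  refine limit_lift L F G R hN ((H.hd.sub H.gd).div_const _) ?_
  intro j
  have e2 : cf j (fun z => (h z - g z) / ((‖D‖ : ℝ) : ℂ)) =
      (cf j h - cf j g) / ((‖D‖ : ℝ) : ℂ) := by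
    have e3 : (fun z => (h z - g z) / ((‖D‖ : ℝ) : ℂ)) =
        fun z => (((‖D‖ : ℝ) : ℂ))⁻¹ * (h z - g z) := by
      funext z
      rw [div_eq_inv_mul]
    rw [e3, cf_smul, div_eq_inv_mul]
    congr 1
    have e4 : (fun z => h z - g z) = h - g := rfl
    unfold cf
    have a1 : ContDiffAt ℂ j h 0 :=
      ((H.hd.analyticOnNhd isOpen_ball) 0 hb0).contDiffAt
    have a2 : ContDiffAt ℂ j g 0 :=
      ((H.gd.analyticOnNhd isOpen_ball) 0 hb0).contDiffAt
    rw [e4, iteratedDeriv_sub a1 a2]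
    ring
  rw [e2]
  rcases Nat.eq_zero_or_pos j with rfl | hj
  · simp only [cf_zero, h0, g0, sub_zero, zero_div]
    refine tendsto_const_nhds.congr fun k => ?_
    exact (hN k).L0.symm
  · have h1 : Tendsto (fun k => (s k : ℂ) ^ (j - 1) * (cf j h - cf j g) / ((‖D‖ : ℝ) : ℂ)) atTop
        (𝓝 (1 ^ (j - 1) * (cf j h - cf j g) / ((‖D‖ : ℝ) : ℂ))) :=
      ((hslim.pow _).mul_const _).div_const _
    rw [one_pow, one_mul] at h1
    refine h1.congr' ?_
    filter_upwards [eventually_ge_atTop j] with k hk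
    rw [hc k j hj (by omega)]
    have hsk : ((s k : ℝ) : ℂ) ≠ 0 := by exact_mod_cast (hs0 k).ne'
    obtain ⟨i, rfl⟩ : ∃ i, j = i + 1 := ⟨j - 1, by omega⟩
    rw [Nat.add_sub_cancel]
    push_cast
    field_simp
    ring

/-- every direction of a univalent harmonic map has an achronal lift -/
theorem lift {h g : ℂ → ℂ} (H : HarmU h g) (h0 : h 0 = 0) (g0 : g 0 = 0) {e : ℂ} (he : ‖e‖ = 1) :
    ∃ c : ℂ, ‖c‖ = 1 ∧ ∃ F G R : ℂ → ℂ,
      Nrm (fun z => c * (h z + e * g z) / ((‖deriv h 0 + e * deriv g 0‖ : ℝ) : ℂ)) F G R := by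
  obtain ⟨t, ht⟩ : ∃ t : ℂ, t ^ 2 = -conj e := IsAlgClosed.exists_pow_nat_eq _ (by norm_num)
  have ht1 : ‖t‖ = 1 := by
    have h1 : ‖t‖ ^ 2 = 1 := by
      rw [← norm_pow, ht, norm_neg, Complex.norm_conj, he]
    nlinarith [norm_nonneg t]
  have htt : t * conj t = 1 := by
    rw [Complex.mul_conj, Complex.normSq_eq_norm_sq, ht1]; norm_num
  have hε2 : e = -(conj t) ^ 2 := by
    have h2 := congrArg conj ht
    simp only [map_pow, map_neg, Complex.conj_conj] at h2
    rw [h2]; ring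
  obtain ⟨F, G, R, hN⟩ := lift_sub (rotU H ht1) (by simp [h0]) (by simp [g0])
  have hz0 : ‖(0 : ℂ)‖ < 1 := by simp
  have d1 : deriv (fun z => t * h z) 0 = t * deriv h 0 := ((H.h1d hz0).const_mul t).deriv
  have d2 : deriv (fun z => conj t * g z) 0 = conj t * deriv g 0 :=
    ((H.g1d hz0).const_mul (conj t)).deriv
  rw [d1, d2] at hN
  have e1 : ∀ x y : ℂ, t * x - conj t * y = t * (x + e * y) := by
    intro x y
    rw [hε2]
    linear_combination (conj t * y) * htt
  have e2 : ‖t * deriv h 0 - conj t * deriv g 0‖ = ‖deriv h 0 + e * deriv g 0‖ := by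
    rw [e1, norm_mul, ht1, one_mul]
  rw [e2] at hN
  refine ⟨t, ht1, F, G, R, ?_⟩
  have e3 : (fun z => (t * h z - conj t * g z) / ((‖deriv h 0 + e * deriv g 0‖ : ℝ) : ℂ)) =
      fun z => t * (h z + e * g z) / ((‖deriv h 0 + e * deriv g 0‖ : ℝ) : ℂ) := by
    funext z
    rw [e1]
  rw [e3] at hN
  exact hN

end Reg66
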