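import Pool.Agent.Reg66.Defs

set_option autoImplicit false

/-!
# Algebraic end of the proof
-/

namespace Reg66

open Complex Metric Set Filter Topology ComplexConjugate

theorem normSq_add_mul {e : ℂ} (he : ‖e‖ = 1) (A B : ℂ) :
    ‖A + e * B‖ ^ 2 = ‖A‖ ^ 2 + ‖B‖ ^ 2 + 2 * (e * (conj A * B)).re := by
  have h1 : e.re * e.re + e.im * e.im = 1 := by
    have := Complex.sq_norm e
    rw [he, normSq_apply] at this
    linarith
  simp only [Complex.sq_norm, normSq_apply, add_re, add_im, mul_re, mul_im, conj_re, conj_im]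
  linear_combination (B.re ^ 2 + B.im ^ 2) * h1

theorem AB_alg {A B b : ℂ} {c : ℝ} (hc : 0 < c) (hb : ‖b‖ < 1)
    (H : ∀ e : ℂ, ‖e‖ = 1 → ‖A + e * B‖ ≤ c * ‖1 + e * b‖) (hA : c ≤ ‖A‖ ∨ c ≤ ‖B‖) :
    ∀ e : ℂ, ‖e‖ = 1 → ‖A + e * B‖ = c * ‖1 + e * b‖ := by
  set D : ℂ := (c : ℂ) ^ 2 * b - conj A * B with hD
  set p : ℝ := c ^ 2 * (1 + ‖b‖ ^ 2) - ‖A‖ ^ 2 - ‖B‖ ^ 2 with hp
  have key : ∀ e : ℂ, ‖e‖ = 1 →
      (c * ‖1 + e * b‖) ^ 2 - ‖A + e * B‖ ^ 2 = p + 2 * (e * D).re := by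
    intro e he
    rw [mul_pow, normSq_add_mul he, normSq_add_mul he, hp, hD]
    have e1 : (e * ((c : ℂ) ^ 2 * b - conj A * B)).re =
        c ^ 2 * (e * b).re - (e * (conj A * B)).re := by
      have : e * ((c : ℂ) ^ 2 * b - conj A * B) = ((c ^ 2 : ℝ) : ℂ) * (e * b) -
          e * (conj A * B) := by push_cast; ring
      rw [this, Complex.sub_re, Complex.re_ofReal_mul]
    rw [e1, norm_one, map_one, one_mul]
    ring
  have hpD : 2 * ‖D‖ ≤ p := by
    obtain ⟨e, he, heD⟩ : ∃ e : ℂ, ‖e‖ = 1 ∧ (e * D).re = -‖D‖ := by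
      by_cases h0 : D = 0
      · exact ⟨1, by simp, by simp [h0]⟩
      · have hn : 0 < ‖D‖ := norm_pos_iff.2 h0
        refine ⟨-(conj D / (‖D‖ : ℂ)), ?_, ?_⟩
        · rw [norm_neg, norm_div, Complex.norm_conj, Complex.norm_real, norm_norm,
            div_self hn.ne']
        · have hnc : (‖D‖ : ℂ) ≠ 0 := by exact_mod_cast hn.ne'
          have : -(conj D / (‖D‖ : ℂ)) * D = ((-‖D‖ : ℝ) : ℂ) := by
            have h2 : conj D * D = (‖D‖ : ℂ) ^ 2 := by
              rw [mul_comm, Complex.mul_conj, Complex.normSq_eq_norm_sq]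
              push_cast
              ring
            rw [neg_mul, div_mul_eq_mul_div, h2]
            push_cast
            field_simp
          rw [this, Complex.ofReal_re]
    have h1 := key e he
    have h2 := H e he
    have h3 : ‖A + e * B‖ ^ 2 ≤ (c * ‖1 + e * b‖) ^ 2 := pow_le_pow_left₀ (norm_nonneg _) h2 2
    rw [heD] at h1
    linarith
  have hD1 : c ^ 2 * ‖b‖ - ‖A‖ * ‖B‖ ≤ ‖D‖ := by
    have := norm_sub_norm_le ((c : ℂ) ^ 2 * b) (conj A * B)
    rw [norm_mul, norm_mul, norm_pow, Complex.norm_real, Real.norm_of_nonneg hc.le,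
      Complex.norm_conj] at this
    exact this
  have hD2 : ‖A‖ * ‖B‖ - c ^ 2 * ‖b‖ ≤ ‖D‖ := by
    have := norm_sub_norm_le (conj A * B) ((c : ℂ) ^ 2 * b)
    rw [norm_mul, norm_mul, norm_pow, Complex.norm_real, Real.norm_of_nonneg hc.le,
      Complex.norm_conj, norm_sub_rev] at this
    exact this
  have hb0 := norm_nonneg b
  have hA0 := norm_nonneg A
  have hB0 := norm_nonneg B
  have q1 : (‖A‖ - ‖B‖) ^ 2 ≤ (c * (1 - ‖b‖)) ^ 2 := by
    rw [hp] at hpD
    nlinarith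
  have q2 : (‖A‖ + ‖B‖) ^ 2 ≤ (c * (1 + ‖b‖)) ^ 2 := by
    rw [hp] at hpD
    nlinarith
  have r1 : |‖A‖ - ‖B‖| ≤ c * (1 - ‖b‖) :=
    abs_le_of_sq_le_sq q1 (mul_nonneg hc.le (by linarith))
  have r2 : ‖A‖ + ‖B‖ ≤ c * (1 + ‖b‖) :=
    abs_le_of_sq_le_sq' q2 (mul_nonneg hc.le (by linarith)) |>.2
  have r3 := (abs_le.1 r1).1
  have r4 := (abs_le.1 r1).2
  have hp0 : p ≤ 0 := by
    rcases hA with h | h
    · have e1 : ‖A‖ = c := le_antisymm (by nlinarith) h
      have e2 : ‖B‖ = c * ‖b‖ := le_antisymm (by nlinarith) (by nlinarith)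
      rw [hp, e1, e2]
      nlinarith
    · have e1 : ‖B‖ = c := le_antisymm (by nlinarith) h
      have e2 : ‖A‖ = c * ‖b‖ := le_antisymm (by nlinarith) (by nlinarith)
      rw [hp, e1, e2]
      nlinarith
  have hn0 : ‖D‖ = 0 := le_antisymm (by linarith) (norm_nonneg _)
  have hD0 : D = 0 := norm_eq_zero.1 hn0
  have hpz : p = 0 := le_antisymm hp0 (by linarith [norm_nonneg D])
  intro e he
  have h1 := key e he
  rw [hD0, hpz, mul_zero, Complex.zero_re] at h1
  have h2 : ‖A + e * B‖ ^ 2 = (c * ‖1 + e * b‖) ^ 2 := by linarith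
  exact (pow_left_inj₀ (norm_nonneg _) (mul_nonneg hc.le (norm_nonneg _)) two_ne_zero).1 h2

theorem one_sub_ne {z : ℂ} (hz : z ∈ ball (0 : ℂ) 1) : (1 : ℂ) - z ≠ 0 := by
  intro h
  have : z = 1 := by linear_combination -h
  rw [this] at hz
  simp at hz

theorem rot_mem {u z : ℂ} (hu : ‖u‖ = 1) (hz : z ∈ ball (0 : ℂ) 1) : u * z ∈ ball (0 : ℂ) 1 := by
  rw [mem_ball_zero_iff] at hz ⊢
  rw [norm_mul, hu, one_mul]
  exact hz

theorem Kf_deriv {z : ℂ} (hz : z ∈ ball (0 : ℂ) 1) : HasDerivAt Kf (Kd z) z := by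
  have h1 := one_sub_ne hz
  have ha : HasDerivAt (fun z : ℂ => z + z ^ 3 / 3) (1 + z ^ 2) z := by
    have := (hasDerivAt_id' z).add (((hasDerivAt_id' z).pow 3).div_const 3)
    refine this.congr_deriv ?_
    norm_num
  have hb : HasDerivAt (fun z : ℂ => (1 - z) ^ 3) (3 * (1 - z) ^ 2 * (-1)) z := by
    have := ((hasDerivAt_id' z).const_sub (1 : ℂ)).pow 3
    refine this.congr_deriv ?_
    norm_num
  have h2 := ha.div hb (pow_ne_zero 3 h1)
  refine h2.congr_deriv ?_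
  unfold Kd
  field_simp
  ring

/-- derivative of `Kd` -/
theorem Kd_deriv {z : ℂ} (hz : z ∈ ball (0 : ℂ) 1) :
    HasDerivAt Kd ((6 + 2 * z) * (1 + z) / (1 - z) ^ 5) z := by
  have h1 := one_sub_ne hz
  have ha : HasDerivAt (fun z : ℂ => (1 + z) ^ 2) (2 * (1 + z)) z := by
    have := ((hasDerivAt_id' z).const_add (1 : ℂ)).pow 2
    refine this.congr_deriv ?_
    norm_num
  have hb : HasDerivAt (fun z : ℂ => (1 - z) ^ 4) (4 * (1 - z) ^ 3 * (-1)) z := by
    have := ((hasDerivAt_id' z).const_sub (1 : ℂ)).pow 4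
    refine this.congr_deriv ?_
    norm_num
  have h2 := ha.div hb (pow_ne_zero 4 h1)
  refine h2.congr_deriv ?_
  field_simp
  ring

theorem Kd_deriv2 {z : ℂ} (hz : z ∈ ball (0 : ℂ) 1) :
    HasDerivAt (fun z : ℂ => (6 + 2 * z) * (1 + z) / (1 - z) ^ 5)
      (((8 + 4 * z) * (1 - z) + 5 * (6 + 2 * z) * (1 + z)) / (1 - z) ^ 6) z := by
  have h1 := one_sub_ne hz
  have ha : HasDerivAt (fun z : ℂ => (6 + 2 * z) * (1 + z)) (8 + 4 * z) z := by
    have := (((hasDerivAt_id' z).const_mul (2 : ℂ)).const_add (6 : ℂ)).mul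
      ((hasDerivAt_id' z).const_add (1 : ℂ))
    refine this.congr_deriv ?_
    ring
  have hb : HasDerivAt (fun z : ℂ => (1 - z) ^ 5) (5 * (1 - z) ^ 4 * (-1)) z := by
    have := ((hasDerivAt_id' z).const_sub (1 : ℂ)).pow 5
    refine this.congr_deriv ?_
    norm_num
  have h2 := ha.div hb (pow_ne_zero 5 h1)
  refine h2.congr_deriv ?_
  field_simp
  ring

/-- Taylor data at `0` of `z ↦ Kd (u z)` -/
theorem Kd_rot (u : ℂ) (hu : ‖u‖ = 1) :
    DifferentiableOn ℂ (fun z => Kd (u * z)) (ball 0 1) ∧ deriv (fun z => Kd (u * z)) 0 = 6 * u ∧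
      deriv (deriv (fun z => Kd (u * z))) 0 = 38 * u ^ 2 := by
  have hd : ∀ z ∈ ball (0 : ℂ) 1, HasDerivAt (fun z => Kd (u * z))
      ((6 + 2 * (u * z)) * (1 + u * z) / (1 - u * z) ^ 5 * u) z := by
    intro z hz
    have h1 := Kd_deriv (rot_mem hu hz)
    have h2 : HasDerivAt (fun z : ℂ => u * z) u z := by
      simpa using (hasDerivAt_id z).const_mul u
    exact h1.comp z h2
  have h0 : (0 : ℂ) ∈ ball (0 : ℂ) 1 := by simp
  refine ⟨fun z hz => (hd z hz).differentiableAt.differentiableWithinAt, ?_, ?_⟩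
  · rw [(hd 0 h0).deriv]
    simp
  · have e1 : deriv (fun z => Kd (u * z)) =ᶠ[𝓝 0]
        fun z => (6 + 2 * (u * z)) * (1 + u * z) / (1 - u * z) ^ 5 * u := by
      filter_upwards [isOpen_ball.mem_nhds h0] with z hz
      exact (hd z hz).deriv
    rw [e1.deriv_eq]
    have h1 := Kd_deriv2 (rot_mem hu h0)
    have h2 : HasDerivAt (fun z : ℂ => u * z) u 0 := by
      simpa using (hasDerivAt_id (0 : ℂ)).const_mul u
    have h3 := (h1.comp 0 h2).mul_const u
    have h4 : HasDerivAt (fun z => (6 + 2 * (u * z)) * (1 + u * z) / (1 - u * z) ^ 5 * u) _ 0 := h3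
    rw [h4.deriv]
    simp
    ring

theorem koebe_pencil {p q : ℂ → ℂ} {b : ℂ} (hb : ‖b‖ < 1)
    (H : ∀ e : ℂ, ‖e‖ = 1 → ∃ u : ℂ, ‖u‖ = 1 ∧ ∀ z ∈ ball (0 : ℂ) 1,
      p z + e * q z = (1 + e * b) * Kd (u * z)) :
    ∃ u : ℂ, ‖u‖ = 1 ∧ ∀ z ∈ ball (0 : ℂ) 1, p z = Kd (u * z) ∧ q z = b * Kd (u * z) := by
  have h0 : (0 : ℂ) ∈ ball (0 : ℂ) 1 := by simp
  obtain ⟨u1, hu1, H1⟩ := H 1 (by simp)
  obtain ⟨u2, hu2, H2⟩ := H (-1) (by simp)
  obtain ⟨k1d, k1a, k1b⟩ := Kd_rot u1 hu1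
  obtain ⟨k2d, k2a, k2b⟩ := Kd_rot u2 hu2
  have hp : ∀ z ∈ ball (0 : ℂ) 1,
      p z = ((1 + b) * Kd (u1 * z) + (1 - b) * Kd (u2 * z)) / 2 := by
    intro z hz
    have a1 := H1 z hz
    have a2 := H2 z hz
    linear_combination (a1 + a2) / 2
  have hq : ∀ z ∈ ball (0 : ℂ) 1,
      q z = ((1 + b) * Kd (u1 * z) - (1 - b) * Kd (u2 * z)) / 2 := by
    intro z hz
    have a1 := H1 z hz
    have a2 := H2 z hz
    linear_combination (a1 - a2) / 2
  have dp : DifferentiableOn ℂ p (ball 0 1) := by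
    have : DifferentiableOn ℂ (fun z => ((1 + b) * Kd (u1 * z) + (1 - b) * Kd (u2 * z)) / 2)
        (ball 0 1) := ((k1d.const_mul _).add (k2d.const_mul _)).div_const _
    exact this.congr hp
  have dq : DifferentiableOn ℂ q (ball 0 1) := by
    have : DifferentiableOn ℂ (fun z => ((1 + b) * Kd (u1 * z) - (1 - b) * Kd (u2 * z)) / 2)
        (ball 0 1) := ((k1d.const_mul _).sub (k2d.const_mul _)).div_const _
    exact this.congr hq
  set h1 := deriv p 0 with hh1
  set g1 := deriv q 0 with hg1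
  set h2 := deriv (deriv p) 0 with hh2
  set g2 := deriv (deriv q) 0 with hg2
  have D : ∀ e : ℂ, ‖e‖ = 1 → ∃ u : ℂ, ‖u‖ = 1 ∧ h1 + e * g1 = (1 + e * b) * (6 * u) ∧
      h2 + e * g2 = (1 + e * b) * (38 * u ^ 2) ∧ ∀ z ∈ ball (0 : ℂ) 1,
      p z + e * q z = (1 + e * b) * Kd (u * z) := by
    intro e he
    obtain ⟨u, hu, Hu⟩ := H e he
    obtain ⟨kd, ka, kb⟩ := Kd_rot u hu
    have hdA : ∀ {f : ℂ → ℂ}, DifferentiableOn ℂ f (ball 0 1) → ∀ z ∈ ball (0 : ℂ) 1,
        HasDerivAt f (deriv f z) z := fun hf z hz =>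
      (hf.differentiableAt (isOpen_ball.mem_nhds hz)).hasDerivAt
    have e1 : ∀ z ∈ ball (0 : ℂ) 1, deriv p z + e * deriv q z =
        (1 + e * b) * deriv (fun z => Kd (u * z)) z := by
      intro z hz
      have a1 : HasDerivAt (fun z => p z + e * q z) (deriv p z + e * deriv q z) z :=
        (hdA dp z hz).add ((hdA dq z hz).const_mul e)
      have a2 : HasDerivAt (fun z => (1 + e * b) * Kd (u * z))
          ((1 + e * b) * deriv (fun z => Kd (u * z)) z) z := (hdA kd z hz).const_mul _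
      have a3 : (fun z => p z + e * q z) =ᶠ[𝓝 z] fun z => (1 + e * b) * Kd (u * z) := by
        filter_upwards [isOpen_ball.mem_nhds hz] with w hw
        exact Hu w hw
      rw [← a1.deriv, a3.deriv_eq, a2.deriv]
    have e2 : deriv (deriv p) 0 + e * deriv (deriv q) 0 =
        (1 + e * b) * deriv (deriv (fun z => Kd (u * z))) 0 := by
      have dp' := dp.deriv isOpen_ball
      have dq' := dq.deriv isOpen_ball
      have dk' := kd.deriv isOpen_ball
      have a1 : HasDerivAt (fun z => deriv p z + e * deriv q z)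
          (deriv (deriv p) 0 + e * deriv (deriv q) 0) 0 :=
        (hdA dp' 0 h0).add ((hdA dq' 0 h0).const_mul e)
      have a2 : HasDerivAt (fun z => (1 + e * b) * deriv (fun z => Kd (u * z)) z)
          ((1 + e * b) * deriv (deriv (fun z => Kd (u * z))) 0) 0 := (hdA dk' 0 h0).const_mul _
      have a3 : (fun z => deriv p z + e * deriv q z) =ᶠ[𝓝 0]
          fun z => (1 + e * b) * deriv (fun z => Kd (u * z)) z := by
        filter_upwards [isOpen_ball.mem_nhds h0] with w hw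
        exact e1 w hw
      rw [← a1.deriv, a3.deriv_eq, a2.deriv]
    refine ⟨u, hu, ?_, ?_, Hu⟩
    · rw [← ka]; exact e1 0 h0
    · rw [← kb]; exact e2
  -- polynomial identity
  have P : ∀ e : ℂ, ‖e‖ = 1 →
      38 * (h1 + e * g1) ^ 2 = 36 * ((1 + e * b) * (h2 + e * g2)) := by
    intro e he
    obtain ⟨u, -, a1, a2, -⟩ := D e he
    rw [a1, a2]
    ring
  have P1 := P 1 (by simp)
  have P2 := P (-1) (by simp)
  have P3 := P I (by simp)
  have c1 : 76 * (h1 * g1) = 36 * (g2 + b * h2) := by linear_combination (P1 - P2) / 2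
  have c0 : 38 * h1 ^ 2 + 38 * g1 ^ 2 = 36 * h2 + 36 * (b * g2) := by
    linear_combination (P1 + P2) / 2
  have c2 : 38 * h1 ^ 2 - 38 * g1 ^ 2 = 36 * h2 - 36 * (b * g2) := by
    linear_combination P3 - I * c1 - (38 * g1 ^ 2 - 36 * b * g2) * (by
      have := Complex.I_sq; exact this : I ^ 2 = -1)
  have d0 : 38 * h1 ^ 2 = 36 * h2 := by linear_combination (c0 + c2) / 2
  have d2 : 38 * g1 ^ 2 = 36 * (b * g2) := by linear_combination (c0 - c2) / 2
  have hg : g1 = b * h1 := by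
    have : 38 * (g1 - b * h1) ^ 2 = 0 := by
      linear_combination d2 - b * c1 + b ^ 2 * d0
    have h3 : (g1 - b * h1) ^ 2 = 0 := by
      rcases mul_eq_zero.1 this with h | h
      · norm_num at h
      · exact h
    have := pow_eq_zero_iff (two_ne_zero) |>.1 h3
    linear_combination this
  have hne : ∀ e : ℂ, ‖e‖ = 1 → 1 + e * b ≠ 0 := by
    intro e he h
    have h1 : e * b = -1 := by linear_combination h
    have h2 : ‖e * b‖ = 1 := by rw [h1]; simp
    rw [norm_mul, he, one_mul] at h2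
    linarith
  have U : ∀ e : ℂ, ‖e‖ = 1 → ‖h1 / 6‖ = 1 ∧ ∀ z ∈ ball (0 : ℂ) 1,
      p z + e * q z = (1 + e * b) * Kd (h1 / 6 * z) := by
    intro e he
    obtain ⟨u, hu, a1, -, a3⟩ := D e he
    have hu6 : u = h1 / 6 := by
      have hn := hne e he
      have : (1 + e * b) * (6 * u - h1) = 0 := by
        rw [hg] at a1
        linear_combination -a1
      rcases mul_eq_zero.1 this with h | h
      · exact absurd h hn
      · linear_combination h / 6
    rw [← hu6]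
    exact ⟨hu, a3⟩
  refine ⟨h1 / 6, (U 1 (by simp)).1, fun z hz => ?_⟩
  have a1 := (U 1 (by simp)).2 z hz
  have a2 := (U (-1) (by simp)).2 z hz
  constructor
  · linear_combination (a1 + a2) / 2
  · linear_combination (a1 - a2) / 2

theorem Kf_special {z : ℂ} (hz : z ^ 2 = -1 / 3) : Kf z = -1 / 3 := by
  have h0 : z ≠ 0 := by
    rintro rfl
    norm_num at hz
  have h1 : (1 - z) ^ 3 = -(8 / 3) * z := by
    linear_combination (3 - z) * hz
  have h2 : z + z ^ 3 / 3 = 8 / 9 * z := by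
    linear_combination z / 3 * hz
  unfold Kf
  rw [h1, h2]
  field_simp
  norm_num

theorem const_of_deriv {f : ℂ → ℂ} (df : ∀ z ∈ ball (0 : ℂ) 1, HasDerivAt f 0 z) {x y : ℂ}
    (hx : x ∈ ball (0 : ℂ) 1) (hy : y ∈ ball (0 : ℂ) 1) : f x = f y := by
  have h := Convex.norm_image_sub_le_of_norm_hasDerivWithin_le (𝕜 := ℂ) (C := 0)
    (s := ball (0 : ℂ) 1) (f := f) (f' := fun _ => 0) (x := y) (y := x)
    (fun z hz => (df z hz).hasDerivWithinAt) (by simp) (convex_ball 0 1) hy hx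
  rw [zero_mul] at h
  exact sub_eq_zero.1 (norm_le_zero_iff.1 h)

theorem koebe_not_inj {h g : ℂ → ℂ} (dh : DifferentiableOn ℂ h (ball 0 1))
    (dg : DifferentiableOn ℂ g (ball 0 1)) {u b : ℂ} (hu : ‖u‖ = 1)
    (H : ∀ z ∈ ball (0 : ℂ) 1, deriv h z = Kd (u * z) ∧ deriv g z = b * Kd (u * z))
    (inj : InjOn (fun z => h z + conj (g z)) (ball 0 1)) : False := by
  have hu0 : u ≠ 0 := by
    rintro rfl
    simp at hu
  have hs : (√3 : ℝ) ^ 2 = 3 := Real.sq_sqrt (by norm_num)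
  have hs0 : (0 : ℝ) < √3 := Real.sqrt_pos.2 (by norm_num)
  have hsc : ((√3 : ℝ) : ℂ) ^ 2 = 3 := by exact_mod_cast congrArg (fun x : ℝ => (x : ℂ)) hs
  have hs0c : ((√3 : ℝ) : ℂ) ≠ 0 := by exact_mod_cast hs0.ne'
  have hs1 : (1 : ℝ) < √3 := by nlinarith
  set x : ℂ := I / (((√3 : ℝ) : ℂ) * u) with hx
  have hux : u * x = I / ((√3 : ℝ) : ℂ) := by
    rw [hx]
    field_simp
  have hux2 : (u * x) ^ 2 = -1 / 3 := by
    rw [hux, div_pow, hsc, Complex.I_sq]
  have hnx : ‖x‖ = 1 / √3 := by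
    rw [hx, norm_div, norm_mul, Complex.norm_real, Real.norm_of_nonneg hs0.le, hu, mul_one,
      Complex.norm_I]
  have hx1 : x ∈ ball (0 : ℂ) 1 := by
    rw [mem_ball_zero_iff, hnx, div_lt_one hs0]
    exact hs1
  have hx2 : -x ∈ ball (0 : ℂ) 1 := by
    rw [mem_ball_zero_iff, norm_neg]
    simpa using hx1
  have hrot : ∀ z ∈ ball (0 : ℂ) 1, HasDerivAt (fun z => Kf (u * z) / u) (Kd (u * z)) z := by
    intro z hz
    have h1 := Kf_deriv (rot_mem hu hz)
    have h2 : HasDerivAt (fun z : ℂ => u * z) u z := by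
      simpa using (hasDerivAt_id z).const_mul u
    have h3 := (h1.comp z h2).div_const u
    refine h3.congr_deriv ?_
    field_simp
  have eh : h x = h (-x) := by
    have := const_of_deriv (f := fun z => h z - Kf (u * z) / u) (by
      intro z hz
      have h1 := (dh.differentiableAt (isOpen_ball.mem_nhds hz)).hasDerivAt
      rw [(H z hz).1] at h1
      have h2 := h1.sub (hrot z hz)
      rw [sub_self] at h2
      exact h2) hx1 hx2
    rw [Kf_special hux2, Kf_special (by rw [mul_neg, neg_sq]; exact hux2)] at this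
    linear_combination this
  have eg : g x = g (-x) := by
    have := const_of_deriv (f := fun z => g z - b * (Kf (u * z) / u)) (by
      intro z hz
      have h1 := (dg.differentiableAt (isOpen_ball.mem_nhds hz)).hasDerivAt
      rw [(H z hz).2] at h1
      have h2 := h1.sub ((hrot z hz).const_mul b)
      rw [sub_self] at h2
      exact h2) hx1 hx2
    rw [Kf_special hux2, Kf_special (by rw [mul_neg, neg_sq]; exact hux2)] at this
    linear_combination this
  have := inj hx1 hx2 (by simp only [eh, eg])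
  have hx0 : x = 0 := by linear_combination this / 2
  rw [hx0, norm_zero] at hnx
  have : (0 : ℝ) < 1 / √3 := by positivity
  linarith

end Reg66
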