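import Pool.Agent.Reg66.Lift
import Pool.Agent.Reg66.Alg
import Pool.Agent.Hay64.Model

set_option autoImplicit false

/-!
# Regularity of the coefficients: final assembly
-/

namespace Reg66

open Complex Metric Set Filter Topology ComplexConjugate AllN24 Pool.Agent.CSH Pool.Agent.HU85
open scoped Nat

/-- the dichotomy for achronal lifts -/
def Dich : Prop := ∀ L F G R : ℂ → ℂ, AchLift L F G R →
  (∃ ζ : ℂ, ‖ζ‖ = 1 ∧ ∀ z ∈ ball (0 : ℂ) 1,
    deriv L z = deriv L 0 * ((1 + ζ * z) ^ 2 / (1 - ζ * z) ^ 4)) ∨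
  ∃ a : ℝ, a < ‖deriv L 0‖ ∧ ∃ n0 : ℕ, ∀ n ≥ n0,
    ‖iteratedDeriv n L 0 / (n ! : ℂ)‖ ≤ a * ((2 * (n : ℝ) ^ 2 + 1) / 3)

theorem cf_congr {f g : ℂ → ℂ} (h : f =ᶠ[𝓝 0] g) (n : ℕ) : cf n f = cf n g := by
  unfold cf
  rw [h.iteratedDeriv_eq n]

theorem cf_add (n : ℕ) {f g : ℂ → ℂ} (df : DifferentiableOn ℂ f (ball 0 1))
    (dg : DifferentiableOn ℂ g (ball 0 1)) : cf n (fun z => f z + g z) = cf n f + cf n g := by
  have hb0 : (0 : ℂ) ∈ ball (0 : ℂ) 1 := by simp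
  have a1 : ContDiffAt ℂ n f 0 := ((df.analyticOnNhd isOpen_ball) 0 hb0).contDiffAt
  have a2 : ContDiffAt ℂ n g 0 := ((dg.analyticOnNhd isOpen_ball) 0 hb0).contDiffAt
  have e4 : (fun z => f z + g z) = f + g := rfl
  unfold cf
  rw [e4, iteratedDeriv_add a1 a2]
  ring

theorem cf_rot {f : ℂ → ℂ} (df : DifferentiableOn ℂ f (ball 0 1)) {u : ℂ} (hu : ‖u‖ = 1) (n : ℕ) :
    cf n (fun z => f (u * z)) = u ^ n * cf n f := by
  have key : ∀ n : ℕ, DifferentiableOn ℂ (iteratedDeriv n f) (ball 0 1) ∧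
      ∀ z ∈ ball (0 : ℂ) 1, iteratedDeriv n (fun z => f (u * z)) z =
        u ^ n * iteratedDeriv n f (u * z) := by
    intro n
    induction n with
    | zero => simp [df]
    | succ n ih =>
      refine ⟨?_, fun z hz => ?_⟩
      · rw [iteratedDeriv_succ]
        exact ih.1.deriv isOpen_ball
      · rw [iteratedDeriv_succ, iteratedDeriv_succ]
        have e : iteratedDeriv n (fun z => f (u * z)) =ᶠ[𝓝 z]
            fun z => u ^ n * iteratedDeriv n f (u * z) := by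
          filter_upwards [isOpen_ball.mem_nhds hz] with w hw
          exact ih.2 w hw
        rw [e.deriv_eq]
        have h1 := (ih.1.differentiableAt (isOpen_ball.mem_nhds (rot_mem hu hz))).hasDerivAt
        have h2 : HasDerivAt (fun z : ℂ => u * z) u z := by
          simpa using (hasDerivAt_id z).const_mul u
        have h3 := (h1.comp z h2).const_mul (u ^ n)
        have h4 : HasDerivAt (fun z => u ^ n * iteratedDeriv n f (u * z)) _ z := h3
        rw [h4.deriv]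
        ring
  have h0 : (0 : ℂ) ∈ ball (0 : ℂ) 1 := by simp
  unfold cf
  rw [(key n).2 0 h0, mul_zero]
  ring

theorem Kf_diff : DifferentiableOn ℂ Kf (ball 0 1) := fun _ hz =>
  (Kf_deriv hz).differentiableAt.differentiableWithinAt

theorem cf_Kf {n : ℕ} (hn : 1 ≤ n) : cf n Kf = (2 * (n : ℂ) ^ 2 + 1) / 3 := by
  have h0 : (0 : ℂ) ∈ ball (0 : ℂ) 1 := by simp
  have e1 : Kf =ᶠ[𝓝 0] fun z => (I / 6) * (Hay64.phi I z) ^ 3 + (-1 / 6 : ℂ) := by
    filter_upwards [isOpen_ball.mem_nhds h0] with z hz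
    have h1 := one_sub_ne hz
    unfold Kf Hay64.phi
    rw [Complex.conj_I]
    have h3 : I ^ 3 = -I := by
      rw [pow_succ, Complex.I_sq]
      ring
    have e : (I - -I * z) = I * (1 + z) := by ring
    rw [e, div_pow, mul_pow, h3]
    field_simp
    ring_nf
    rw [Complex.I_sq]
    ring
  rw [cf_congr e1]
  have hd : DifferentiableOn ℂ (fun z => (Hay64.phi I z) ^ 3) (ball 0 1) := by
    intro z hz
    have hz' : ‖z‖ < 1 := by simpa using hz
    exact ((Hay64.phi_hasDerivAt I hz').differentiableAt.pow 3).differentiableWithinAt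
  rw [cf_add n (hd.const_mul _) (differentiableOn_const _), cf_smul]
  have e2 : cf n (fun _ : ℂ => (-1 / 6 : ℂ)) = 0 := by
    unfold cf
    rw [iteratedDeriv_const]
    simp [show n ≠ 0 by omega]
  have e3 := Hay64.model_coef n hn
  unfold cf at e2 ⊢
  rw [e2, e3]
  ring_nf
  rw [Complex.I_sq]
  ring

theorem cf_rigid {L : ℂ → ℂ} {l ζ : ℂ} (hζ : ‖ζ‖ = 1)
    (hd : ∀ z ∈ ball (0 : ℂ) 1, deriv L z = l * Kd (ζ * z)) {n : ℕ} (hn : 1 ≤ n) :
    ‖cf n L‖ = ‖l‖ * ((2 * (n : ℝ) ^ 2 + 1) / 3) := by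
  have h0 : (0 : ℂ) ∈ ball (0 : ℂ) 1 := by simp
  have hζ0 : ζ ≠ 0 := by
    rintro rfl
    simp at hζ
  obtain ⟨m, rfl⟩ : ∃ m, n = m + 1 := ⟨n - 1, by omega⟩
  have e1 : cf (m + 1) L = cf (m + 1) (fun z => l / ζ * Kf (ζ * z)) := by
    unfold cf
    rw [iteratedDeriv_succ', iteratedDeriv_succ']
    have : deriv L =ᶠ[𝓝 0] deriv (fun z => l / ζ * Kf (ζ * z)) := by
      filter_upwards [isOpen_ball.mem_nhds h0] with z hz
      rw [hd z hz]
      have h1 := Kf_deriv (rot_mem hζ hz)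
      have h2 : HasDerivAt (fun z : ℂ => ζ * z) ζ z := by
        simpa using (hasDerivAt_id z).const_mul ζ
      have h3 := (h1.comp z h2).const_mul (l / ζ)
      have h4 : HasDerivAt (fun z => l / ζ * Kf (ζ * z)) _ z := h3
      rw [h4.deriv]
      field_simp
    rw [this.iteratedDeriv_eq m]
  rw [e1, cf_smul, cf_rot Kf_diff hζ, cf_Kf hn, norm_mul, norm_mul, norm_div, hζ, norm_pow, hζ]
  have e5 : ((2 * ((m + 1 : ℕ) : ℂ) ^ 2 + 1) / 3 : ℂ) =
      (((2 * ((m + 1 : ℕ) : ℝ) ^ 2 + 1) / 3 : ℝ) : ℂ) := by push_cast; ring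
  rw [e5, Complex.norm_real, Real.norm_of_nonneg (by positivity)]
  ring

/-- the two alternatives for `h + e g` -/
theorem step (D : Dich) {h g : ℂ → ℂ} (H : HarmU h g) (h0 : h 0 = 0) (g0 : g 0 = 0)
    (h1 : deriv h 0 = 1) {e : ℂ} (he : ‖e‖ = 1) :
    (∃ u : ℂ, ‖u‖ = 1 ∧ ∀ z ∈ ball (0 : ℂ) 1,
      deriv h z + e * deriv g z = (1 + e * deriv g 0) * Kd (u * z)) ∨
    ∃ a : ℝ, a < 1 ∧ ∃ n0 : ℕ, ∀ n ≥ n0,
      ‖cf n h + e * cf n g‖ ≤ a * ‖1 + e * deriv g 0‖ * ((2 * (n : ℝ) ^ 2 + 1) / 3) := by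
  have hb0 : (0 : ℂ) ∈ ball (0 : ℂ) 1 := by simp
  obtain ⟨c, hc, F, G, R, N⟩ := lift H h0 g0 he
  rw [h1] at N
  set m : ℝ := ‖1 + e * deriv g 0‖ with hm
  have hm0 : 0 < m := by
    have h2 := H.lt 0 hb0
    rw [h1, norm_one] at h2
    have h3 := norm_sub_norm_le (1 : ℂ) (-(e * deriv g 0))
    rw [norm_one, norm_neg, norm_mul, he, one_mul, sub_neg_eq_add] at h3
    linarith
  have hmc : ((m : ℝ) : ℂ) ≠ 0 := by exact_mod_cast hm0.ne'
  have hc0 : c ≠ 0 := by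
    rintro rfl
    simp at hc
  have hder : ∀ z ∈ ball (0 : ℂ) 1, deriv (fun z => c * (h z + e * g z) / ((m : ℝ) : ℂ)) z =
      c * (deriv h z + e * deriv g z) / ((m : ℝ) : ℂ) := by
    intro z hz
    have a1 := (H.hd.differentiableAt (isOpen_ball.mem_nhds hz)).hasDerivAt
    have a2 := (H.gd.differentiableAt (isOpen_ball.mem_nhds hz)).hasDerivAt
    exact (((a1.add (a2.const_mul e)).const_mul c).div_const _).deriv
  have hcf : ∀ n : ℕ, cf n (fun z => c * (h z + e * g z) / ((m : ℝ) : ℂ)) =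
      c / ((m : ℝ) : ℂ) * (cf n h + e * cf n g) := by
    intro n
    have e1 : (fun z => c * (h z + e * g z) / ((m : ℝ) : ℂ)) =
        fun z => (c / ((m : ℝ) : ℂ)) * (h z + e * g z) := by
      funext z
      ring
    rw [e1, cf_smul, cf_add n H.hd (H.gd.const_mul e), cf_smul]
  rcases D _ F G R N.toAchLift with ⟨ζ, hζ, hr⟩ | ⟨a, ha, n0, hn⟩
  · left
    refine ⟨ζ, hζ, fun z hz => ?_⟩
    have a1 := hr z hz
    rw [hder z hz, hder 0 hb0, h1] at a1
    have hcm : c / ((m : ℝ) : ℂ) ≠ 0 := div_ne_zero hc0 hmc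
    have a2 : c / ((m : ℝ) : ℂ) * (deriv h z + e * deriv g z) =
        c / ((m : ℝ) : ℂ) * ((1 + e * deriv g 0) * Kd (ζ * z)) := by
      unfold Kd
      linear_combination a1
    exact mul_left_cancel₀ hcm a2
  · right
    rw [N.L1] at ha
    refine ⟨a, ha, n0, fun n hnn => ?_⟩
    have a1 := hn n hnn
    have a2 : ‖cf n (fun z => c * (h z + e * g z) / ((m : ℝ) : ℂ))‖ ≤
        a * ((2 * (n : ℝ) ^ 2 + 1) / 3) := a1
    rw [hcf n, norm_mul, norm_div, hc, Complex.norm_real, Real.norm_of_nonneg hm0.le] at a2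
    have a3 : 1 / m * ‖cf n h + e * cf n g‖ * m ≤ a * ((2 * (n : ℝ) ^ 2 + 1) / 3) * m :=
      mul_le_mul_of_nonneg_right a2 hm0.le
    have a4 : 1 / m * ‖cf n h + e * cf n g‖ * m = ‖cf n h + e * cf n g‖ := by
      field_simp
    rw [a4] at a3
    linarith

/-- upper bound in both alternatives -/
theorem upper (D : Dich) {h g : ℂ → ℂ} (H : HarmU h g) (h0 : h 0 = 0) (g0 : g 0 = 0)
    (h1 : deriv h 0 = 1) {e : ℂ} (he : ‖e‖ = 1) : ∃ n0 : ℕ, ∀ n ≥ n0,
      ‖cf n h + e * cf n g‖ ≤ ‖1 + e * deriv g 0‖ * ((2 * (n : ℝ) ^ 2 + 1) / 3) := by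
  rcases step D H h0 g0 h1 he with ⟨u, hu, hk⟩ | ⟨a, ha, n0, hn⟩
  · refine ⟨1, fun n hn => ?_⟩
    have hd : ∀ z ∈ ball (0 : ℂ) 1, deriv (fun z => h z + e * g z) z =
        (1 + e * deriv g 0) * Kd (u * z) := by
      intro z hz
      have a1 := (H.hd.differentiableAt (isOpen_ball.mem_nhds hz)).hasDerivAt
      have a2 := (H.gd.differentiableAt (isOpen_ball.mem_nhds hz)).hasDerivAt
      rw [← hk z hz]
      exact (a1.add (a2.const_mul e)).deriv
    have := cf_rigid hu hd hn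
    rw [cf_add n H.hd (H.gd.const_mul e), cf_smul] at this
    exact this.le
  · refine ⟨n0, fun n hnn => (hn n hnn).trans ?_⟩
    have h2 : 0 ≤ ‖1 + e * deriv g 0‖ * ((2 * (n : ℝ) ^ 2 + 1) / 3) := by positivity
    nlinarith

/-- **Regularity theorem**, from the dichotomy for achronal lifts -/
theorem reg_of (D : Dich) {h g : ℂ → ℂ} (H : HarmU h g) (h0 : h 0 = 0) (g0 : g 0 = 0)
    (h1 : deriv h 0 = 1) :
    ∃ c : ℝ, c < 2 / 3 ∧ ∃ n0 : ℕ, ∀ n ≥ n0,
      ‖cf n h‖ ≤ c * (n : ℝ) ^ 2 ∧ ‖cf n g‖ ≤ c * (n : ℝ) ^ 2 := by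
  have hb0 : (0 : ℂ) ∈ ball (0 : ℂ) 1 := by simp
  by_contra hcon
  push Not at hcon
  set b : ℂ := deriv g 0 with hb
  have hb1 : ‖b‖ < 1 := by
    have h2 := H.lt 0 hb0
    rwa [h1, norm_one] at h2
  have hsel : ∀ k : ℕ, ∃ n : ℕ, k + 1 ≤ n ∧
      (2 / 3 - 1 / ((k : ℝ) + 1)) * (n : ℝ) ^ 2 < max ‖cf n h‖ ‖cf n g‖ := by
    intro k
    obtain ⟨n, hn, h3⟩ := hcon (2 / 3 - 1 / ((k : ℝ) + 1)) (by
      have : (0 : ℝ) < 1 / ((k : ℝ) + 1) := by positivity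
      linarith) (k + 1)
    refine ⟨n, hn, ?_⟩
    by_cases h4 : ‖cf n h‖ ≤ (2 / 3 - 1 / ((k : ℝ) + 1)) * (n : ℝ) ^ 2
    · exact lt_max_of_lt_right (h3 h4)
    · push Not at h4
      exact lt_max_of_lt_left h4
  choose N hN hNm using hsel
  have hNpos : ∀ k, (0 : ℝ) < (N k : ℝ) ^ 2 := by
    intro k
    have : (0 : ℝ) < N k := by
      have := hN k
      exact_mod_cast (by omega : 0 < N k)
    positivity
  have hNtop : Tendsto N atTop atTop := by
    refine tendsto_atTop_mono (fun k => ?_) tendsto_id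
    have := hN k
    show k ≤ N k
    omega
  set x : ℕ → ℂ × ℂ := fun k => (cf (N k) h / ((N k : ℝ) ^ 2 : ℝ), cf (N k) g / ((N k : ℝ) ^ 2 : ℝ))
    with hx
  have hxn : ∀ k, ‖x k‖ = max ‖cf (N k) h‖ ‖cf (N k) g‖ / (N k : ℝ) ^ 2 := by
    intro k
    have hp := hNpos k
    rw [Prod.norm_def]
    simp only [hx]
    rw [norm_div, norm_div, Complex.norm_real, Real.norm_of_nonneg hp.le]
    rw [max_div_div_right hp.le]
  have hxlow : ∀ k : ℕ, 2 / 3 - 1 / ((k : ℝ) + 1) ≤ ‖x k‖ := by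
    intro k
    rw [hxn k, le_div_iff₀ (hNpos k)]
    exact (hNm k).le
  -- boundedness
  obtain ⟨n1, hn1⟩ := upper D H h0 g0 h1 (e := 1) (by simp)
  obtain ⟨n2, hn2⟩ := upper D H h0 g0 h1 (e := -1) (by simp)
  have hbd : ∀ᶠ k : ℕ in atTop, x k ∈ closedBall (0 : ℂ × ℂ) 2 := by
    filter_upwards [hNtop.eventually_ge_atTop (max n1 n2)] with k hk
    rw [mem_closedBall_zero_iff, hxn k, div_le_iff₀ (hNpos k)]
    have a1 := hn1 (N k) ((le_max_left _ _).trans hk)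
    have a2 := hn2 (N k) ((le_max_right _ _).trans hk)
    have hNk : (1 : ℝ) ≤ (N k : ℝ) ^ 2 := by
      have : (1 : ℝ) ≤ N k := by
        have := hN k
        exact_mod_cast (by omega : 1 ≤ N k)
      nlinarith
    have b1 : ‖1 + 1 * deriv g 0‖ ≤ 2 := by
      refine (norm_add_le _ _).trans ?_
      rw [norm_one, one_mul]
      linarith
    have b2 : ‖1 + -1 * deriv g 0‖ ≤ 2 := by
      refine (norm_add_le _ _).trans ?_
      rw [norm_one, neg_one_mul, norm_neg]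
      linarith
    have c1 : ‖cf (N k) h + 1 * cf (N k) g‖ ≤ 2 * (N k : ℝ) ^ 2 := by
      refine a1.trans ?_
      have : (2 * (N k : ℝ) ^ 2 + 1) / 3 ≤ (N k : ℝ) ^ 2 := by linarith
      exact mul_le_mul b1 this (by positivity) (by norm_num)
    have c2 : ‖cf (N k) h + -1 * cf (N k) g‖ ≤ 2 * (N k : ℝ) ^ 2 := by
      refine a2.trans ?_
      have : (2 * (N k : ℝ) ^ 2 + 1) / 3 ≤ (N k : ℝ) ^ 2 := by linarith
      exact mul_le_mul b2 this (by positivity) (by norm_num)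
    have d1 : ‖cf (N k) h‖ ≤ 2 * (N k : ℝ) ^ 2 := by
      have e1 : cf (N k) h = ((cf (N k) h + 1 * cf (N k) g) + (cf (N k) h + -1 * cf (N k) g)) / 2 := by
        ring
      rw [e1, norm_div, Complex.norm_ofNat]
      have := norm_add_le (cf (N k) h + 1 * cf (N k) g) (cf (N k) h + -1 * cf (N k) g)
      linarith
    have d2 : ‖cf (N k) g‖ ≤ 2 * (N k : ℝ) ^ 2 := by
      have e1 : cf (N k) g = ((cf (N k) h + 1 * cf (N k) g) - (cf (N k) h + -1 * cf (N k) g)) / 2 := by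
        ring
      rw [e1, norm_div, Complex.norm_ofNat]
      have := norm_sub_le (cf (N k) h + 1 * cf (N k) g) (cf (N k) h + -1 * cf (N k) g)
      linarith
    exact max_le d1 d2
  obtain ⟨⟨A, B⟩, -, s, hs, hlim⟩ := tendsto_subseq_of_frequently_bounded
    (isBounded_closedBall (x := (0 : ℂ × ℂ)) (r := 2)) hbd.frequently
  have hstop : Tendsto (fun k => N (s k)) atTop atTop := hNtop.comp hs.tendsto_atTop
  have hnorm : 2 / 3 ≤ ‖((A, B) : ℂ × ℂ)‖ := by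
    have t1 : Tendsto (fun k => 2 / 3 - 1 / ((s k : ℝ) + 1)) atTop (𝓝 (2 / 3 - 0)) := by
      refine tendsto_const_nhds.sub ?_
      exact tendsto_one_div_add_atTop_nhds_zero_nat.comp hs.tendsto_atTop
    rw [sub_zero] at t1
    exact le_of_tendsto_of_tendsto t1 hlim.norm (Eventually.of_forall fun k => hxlow (s k))
  have hAB : (2 / 3 : ℝ) ≤ ‖A‖ ∨ (2 / 3 : ℝ) ≤ ‖B‖ := by
    rw [Prod.norm_def] at hnorm
    exact le_max_iff.1 hnorm
  have hA : Tendsto (fun k => cf (N (s k)) h / ((N (s k) : ℝ) ^ 2 : ℝ)) atTop (𝓝 A) :=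
    (continuous_fst.tendsto (A, B)).comp hlim
  have hB : Tendsto (fun k => cf (N (s k)) g / ((N (s k) : ℝ) ^ 2 : ℝ)) atTop (𝓝 B) :=
    (continuous_snd.tendsto (A, B)).comp hlim
  have hE : ∀ e : ℂ, Tendsto (fun k => ‖cf (N (s k)) h + e * cf (N (s k)) g‖ / (N (s k) : ℝ) ^ 2)
      atTop (𝓝 ‖A + e * B‖) := by
    intro e
    refine ((hA.add (hB.const_mul e)).norm).congr fun k => ?_
    have e1 : cf (N (s k)) h / ((N (s k) : ℝ) ^ 2 : ℝ) + e * (cf (N (s k)) g /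
        ((N (s k) : ℝ) ^ 2 : ℝ)) = (cf (N (s k)) h + e * cf (N (s k)) g) /
          (((N (s k) : ℝ) ^ 2 : ℝ) : ℂ) := by ring
    rw [e1, norm_div, Complex.norm_real, Real.norm_of_nonneg (hNpos _).le]
  -- a general limit comparison
  have hcomp : ∀ (e : ℂ) (a : ℝ), (∃ n0 : ℕ, ∀ n ≥ n0,
      ‖cf n h + e * cf n g‖ ≤ a * ‖1 + e * b‖ * ((2 * (n : ℝ) ^ 2 + 1) / 3)) →
      ‖A + e * B‖ ≤ a * ‖1 + e * b‖ * (2 / 3) := by
    rintro e a ⟨n0, hn0⟩
    have t1 : Tendsto (fun k => a * ‖1 + e * b‖ * (2 / 3 + 1 / 3 * (1 / (N (s k) : ℝ)) ^ 2)) atTop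
        (𝓝 (a * ‖1 + e * b‖ * (2 / 3 + 1 / 3 * 0 ^ 2))) := by
      refine Tendsto.const_mul _ (tendsto_const_nhds.add (Tendsto.const_mul _ ?_))
      exact (tendsto_one_div_atTop_nhds_zero_nat.comp hstop).pow 2
    have e0 : a * ‖1 + e * b‖ * (2 / 3 + 1 / 3 * 0 ^ 2) = a * ‖1 + e * b‖ * (2 / 3) := by ring
    rw [e0] at t1
    refine le_of_tendsto_of_tendsto (hE e) t1 ?_
    filter_upwards [hstop.eventually_ge_atTop n0] with k hk
    rw [div_le_iff₀ (hNpos (s k))]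
    refine (hn0 _ hk).trans (le_of_eq ?_)
    have hne : (N (s k) : ℝ) ≠ 0 := by
      have := hNpos (s k)
      intro h2
      rw [h2] at this
      norm_num at this
    field_simp
  have hle : ∀ e : ℂ, ‖e‖ = 1 → ‖A + e * B‖ ≤ 2 / 3 * ‖1 + e * b‖ := by
    intro e he
    have := hcomp e 1 (by
      obtain ⟨n0, hn0⟩ := upper D H h0 g0 h1 he
      refine ⟨n0, fun n hn => ?_⟩
      rw [one_mul]
      exact hn0 n hn)
    linarith
  have heq := AB_alg (by norm_num : (0 : ℝ) < 2 / 3) hb1 hle hAB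
  have hrig : ∀ e : ℂ, ‖e‖ = 1 → ∃ u : ℂ, ‖u‖ = 1 ∧ ∀ z ∈ ball (0 : ℂ) 1,
      deriv h z + e * deriv g z = (1 + e * b) * Kd (u * z) := by
    intro e he
    rcases step D H h0 g0 h1 he with hk | ⟨a, ha, n0, hn⟩
    · exact hk
    · exfalso
      have h3 := hcomp e a ⟨n0, hn⟩
      have h4 := heq e he
      have h5 : 0 < ‖1 + e * b‖ := by
        have h6 := norm_sub_norm_le (1 : ℂ) (-(e * b))
        rw [norm_one, norm_neg, norm_mul, he, one_mul, sub_neg_eq_add] at h6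
        linarith
      nlinarith
  obtain ⟨u, hu, hk⟩ := koebe_pencil hb1 hrig
  exact koebe_not_inj H.hd H.gd hu hk H.inj

end Reg66
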