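import Pool.Agent.Reg66.Fin

set_option autoImplicit false

/-!
# The coefficient limits of a univalent harmonic map exist: final assembly from the asymptotic
formula for achronal lifts
-/

namespace Reg66

open Complex Metric Set Filter Topology ComplexConjugate AllN24 Pool.Agent.CSH Pool.Agent.HU85
open scoped Nat

/-- asymptotic formula for the coefficients of achronal lifts -/
def Asym : Prop := ∀ L F G R : ℂ → ℂ, AchLift L F G R →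
  ∃ x k : ℂ, ‖x‖ = 1 ∧ Tendsto (fun n : ℕ => cf n L * x ^ n / (n : ℂ) ^ 2) atTop (𝓝 k) ∧
    ‖k‖ ≤ 2 / 3 * ‖deriv L 0‖ ∧
    (‖k‖ = 2 / 3 * ‖deriv L 0‖ → ∃ ζ : ℂ, ‖ζ‖ = 1 ∧ ∀ z ∈ ball (0 : ℂ) 1,
      deriv L z = deriv L 0 * ((1 + ζ * z) ^ 2 / (1 - ζ * z) ^ 4))

/-- isolating one exponential -/
theorem coef_zero {y1 y2 y3 c1 c2 c3 : ℂ} (h1 : ‖y1‖ = 1) (h12 : y1 ≠ y2) (h13 : y1 ≠ y3)
    (h : Tendsto (fun n : ℕ => c1 * y1 ^ n + c2 * y2 ^ n + c3 * y3 ^ n) atTop (𝓝 0)) :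
    c1 = 0 := by
  have t1 := (tendsto_add_atTop_iff_nat 1).2 h
  have t2 := (tendsto_add_atTop_iff_nat 2).2 h
  have t3 := (t2.sub (t1.const_mul (y2 + y3))).add (h.const_mul (y2 * y3))
  have t4 := t3.norm
  have e : ∀ n : ℕ, ‖c1 * y1 ^ (n + 2) + c2 * y2 ^ (n + 2) + c3 * y3 ^ (n + 2) -
      (y2 + y3) * (c1 * y1 ^ (n + 1) + c2 * y2 ^ (n + 1) + c3 * y3 ^ (n + 1)) +
      y2 * y3 * (c1 * y1 ^ n + c2 * y2 ^ n + c3 * y3 ^ n)‖ = ‖c1 * (y1 - y2) * (y1 - y3)‖ := by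
    intro n
    have e1 : c1 * y1 ^ (n + 2) + c2 * y2 ^ (n + 2) + c3 * y3 ^ (n + 2) -
      (y2 + y3) * (c1 * y1 ^ (n + 1) + c2 * y2 ^ (n + 1) + c3 * y3 ^ (n + 1)) +
      y2 * y3 * (c1 * y1 ^ n + c2 * y2 ^ n + c3 * y3 ^ n) =
        c1 * (y1 - y2) * (y1 - y3) * y1 ^ n := by ring
    rw [e1, norm_mul, norm_pow, h1, one_pow, mul_one]
  have t5 : Tendsto (fun _ : ℕ => ‖c1 * (y1 - y2) * (y1 - y3)‖) atTop (𝓝 0) := by
    have t6 := t4.congr e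
    simpa using t6
  have h0 : ‖c1 * (y1 - y2) * (y1 - y3)‖ = 0 := tendsto_nhds_unique tendsto_const_nhds t5
  have h2 := norm_eq_zero.1 h0
  rcases mul_eq_zero.1 h2 with h3 | h3
  · rcases mul_eq_zero.1 h3 with h4 | h4
    · exact h4
    · exact absurd (sub_eq_zero.1 h4) h12
  · exact absurd (sub_eq_zero.1 h3) h13

/-- from a rotated limit to an exponential -/
theorem sub_exp {u : ℕ → ℂ} {x k : ℂ} (hx : ‖x‖ = 1)
    (h : Tendsto (fun n : ℕ => u n * x ^ n) atTop (𝓝 k)) :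
    Tendsto (fun n : ℕ => u n - k * (x⁻¹) ^ n) atTop (𝓝 0) := by
  have hx0 : x ≠ 0 := by
    rintro rfl
    simp at hx
  have t1 : Tendsto (fun n : ℕ => ‖u n * x ^ n - k‖) atTop (𝓝 0) := by
    have := (h.sub_const k).norm
    simpa using this
  rw [tendsto_zero_iff_norm_tendsto_zero]
  refine t1.congr fun n => ?_
  have e1 : u n - k * (x⁻¹) ^ n = (u n * x ^ n - k) * (x⁻¹) ^ n := by
    rw [sub_mul, mul_assoc, ← mul_pow, mul_inv_cancel₀ hx0, one_pow, mul_one]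
  rw [e1, norm_mul, norm_pow, norm_inv, hx, inv_one, one_pow, mul_one]

theorem zero_rot {u : ℕ → ℂ} {x y : ℂ} (hx : ‖x‖ = 1) (hy : ‖y‖ = 1)
    (h : Tendsto (fun n : ℕ => u n * x ^ n) atTop (𝓝 0)) :
    Tendsto (fun n : ℕ => u n * y ^ n) atTop (𝓝 0) := by
  rw [tendsto_zero_iff_norm_tendsto_zero] at h ⊢
  refine h.congr fun n => ?_
  rw [norm_mul, norm_mul, norm_pow, norm_pow, hx, hy]

/-- three linearly dependent sequences of pure exponential type have a common direction -/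
theorem common_dir {u v : ℕ → ℂ} {x1 x2 x3 k1 k2 k3 : ℂ} (hx1 : ‖x1‖ = 1) (hx2 : ‖x2‖ = 1)
    (hx3 : ‖x3‖ = 1)
    (h1 : Tendsto (fun n : ℕ => (u n + 1 * v n) * x1 ^ n) atTop (𝓝 k1))
    (h2 : Tendsto (fun n : ℕ => (u n + -1 * v n) * x2 ^ n) atTop (𝓝 k2))
    (h3 : Tendsto (fun n : ℕ => (u n + I * v n) * x3 ^ n) atTop (𝓝 k3)) :
    ∃ x A B : ℂ, ‖x‖ = 1 ∧ Tendsto (fun n : ℕ => u n * x ^ n) atTop (𝓝 A) ∧
      Tendsto (fun n : ℕ => v n * x ^ n) atTop (𝓝 B) := by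
  have fin : ∀ x a b : ℂ, ‖x‖ = 1 → Tendsto (fun n : ℕ => (u n + 1 * v n) * x ^ n) atTop (𝓝 a) →
      Tendsto (fun n : ℕ => (u n + -1 * v n) * x ^ n) atTop (𝓝 b) →
      ∃ x A B : ℂ, ‖x‖ = 1 ∧ Tendsto (fun n : ℕ => u n * x ^ n) atTop (𝓝 A) ∧
      Tendsto (fun n : ℕ => v n * x ^ n) atTop (𝓝 B) := by
    intro x a b hx ha hb
    refine ⟨x, (a + b) * (1 / 2), (a - b) * (1 / 2), hx, ((ha.add hb).mul_const _).congr ?_,
      ((ha.sub hb).mul_const _).congr ?_⟩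
    · intro n
      ring
    · intro n
      ring
  by_cases k1z : k1 = 0
  · subst k1z
    exact fin x2 0 k2 hx2 (zero_rot hx1 hx2 h1) h2
  by_cases k2z : k2 = 0
  · subst k2z
    exact fin x1 k1 0 hx1 h1 (zero_rot hx2 hx1 h2)
  have hy1 : ‖x1⁻¹‖ = 1 := by rw [norm_inv, hx1, inv_one]
  have hy2 : ‖x2⁻¹‖ = 1 := by rw [norm_inv, hx2, inv_one]
  have t1 := sub_exp hx1 h1
  have t2 := sub_exp hx2 h2
  have t3 := sub_exp hx3 h3
  have t4 : Tendsto (fun n : ℕ => (1 + I) / 2 * k1 * (x1⁻¹) ^ n + (1 - I) / 2 * k2 * (x2⁻¹) ^ n +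
      (-k3) * (x3⁻¹) ^ n) atTop (𝓝 0) := by
    have t5 := (t3.sub (t1.const_mul ((1 + I) / 2))).sub (t2.const_mul ((1 - I) / 2))
    have e0 : (0 : ℂ) - (1 + I) / 2 * 0 - (1 - I) / 2 * 0 = 0 := by ring
    rw [e0] at t5
    refine t5.congr fun n => ?_
    ring
  have hI1 : (1 + I) / 2 ≠ 0 := by
    intro h
    have := congrArg Complex.re h
    simp at this
  have hI2 : (1 - I) / 2 ≠ 0 := by
    intro h
    have := congrArg Complex.re h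
    simp at this
  by_cases hx12 : x1⁻¹ = x2⁻¹
  · have hx : x1 = x2 := inv_injective hx12
    subst hx
    exact fin x1 k1 k2 hx1 h1 h2
  exfalso
  by_cases hx13 : x1⁻¹ = x3⁻¹
  · have hx23 : x2⁻¹ ≠ x3⁻¹ := fun h => hx12 (hx13.trans h.symm)
    have t6 : Tendsto (fun n : ℕ => (1 - I) / 2 * k2 * (x2⁻¹) ^ n + (1 + I) / 2 * k1 * (x1⁻¹) ^ n +
      (-k3) * (x3⁻¹) ^ n) atTop (𝓝 0) := by
      refine t4.congr fun n => ?_
      ring
    have := coef_zero hy2 (Ne.symm hx12) hx23 t6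
    exact (mul_ne_zero hI2 k2z) this
  · have := coef_zero hy1 hx12 hx13 t4
    exact (mul_ne_zero hI1 k1z) this

/-- the asymptotic formula for `h + e g` -/
theorem step2 (D : Asym) {h g : ℂ → ℂ} (H : HarmU h g) (h0 : h 0 = 0) (g0 : g 0 = 0)
    (h1 : deriv h 0 = 1) {e : ℂ} (he : ‖e‖ = 1) :
    ∃ x k : ℂ, ‖x‖ = 1 ∧
      Tendsto (fun n : ℕ => (cf n h / (n : ℂ) ^ 2 + e * (cf n g / (n : ℂ) ^ 2)) * x ^ n)
        atTop (𝓝 k) ∧
      ‖k‖ ≤ 2 / 3 * ‖1 + e * deriv g 0‖ ∧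
      (‖k‖ = 2 / 3 * ‖1 + e * deriv g 0‖ → ∃ u : ℂ, ‖u‖ = 1 ∧ ∀ z ∈ ball (0 : ℂ) 1,
        deriv h z + e * deriv g z = (1 + e * deriv g 0) * Kd (u * z)) := by
  have hb0 : (0 : ℂ) ∈ ball (0 : ℂ) 1 := by simp
  obtain ⟨c, hc, F, G, R, N⟩ := lift H h0 g0 he
  rw [h1] at N
  set m : ℝ := ‖1 + e * deriv g 0‖ with hm
  have hm0 : 0 < m := by
    have h2 := H.lt 0 hb0
    rw [h1, norm_one] at h2
    have h3 := norm_sub_norm_le (1 : ℂ) (-(e * deriv g 0))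
    rw [norm_one, norm_neg, norm_mul, he, one_mul, sub_neg_eq_add] at h3
    linarith
  have hmc : ((m : ℝ) : ℂ) ≠ 0 := by exact_mod_cast hm0.ne'
  have hc0 : c ≠ 0 := by
    rintro rfl
    simp at hc
  have hder : ∀ z ∈ ball (0 : ℂ) 1, deriv (fun z => c * (h z + e * g z) / ((m : ℝ) : ℂ)) z =
      c * (deriv h z + e * deriv g z) / ((m : ℝ) : ℂ) := by
    intro z hz
    have a1 := (H.hd.differentiableAt (isOpen_ball.mem_nhds hz)).hasDerivAt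
    have a2 := (H.gd.differentiableAt (isOpen_ball.mem_nhds hz)).hasDerivAt
    exact (((a1.add (a2.const_mul e)).const_mul c).div_const _).deriv
  have hcf : ∀ n : ℕ, cf n (fun z => c * (h z + e * g z) / ((m : ℝ) : ℂ)) =
      c / ((m : ℝ) : ℂ) * (cf n h + e * cf n g) := by
    intro n
    have e1 : (fun z => c * (h z + e * g z) / ((m : ℝ) : ℂ)) =
        fun z => (c / ((m : ℝ) : ℂ)) * (h z + e * g z) := by
      funext z
      ring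
    rw [e1, cf_smul, cf_add n H.hd (H.gd.const_mul e), cf_smul]
  obtain ⟨x, k, hx, hlim, hk, hr⟩ := D _ F G R N.toAchLift
  rw [N.L1] at hk hr
  have hk2 : ‖((m : ℝ) : ℂ) / c * k‖ = m * ‖k‖ := by
    rw [norm_mul, norm_div, hc, Complex.norm_real, Real.norm_of_nonneg hm0.le, div_one]
  refine ⟨x, ((m : ℝ) : ℂ) / c * k, hx, ?_, ?_, ?_⟩
  · refine (hlim.const_mul (((m : ℝ) : ℂ) / c)).congr fun n => ?_
    rw [hcf n]
    field_simp
  · rw [hk2]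
    nlinarith [mul_le_mul_of_nonneg_left hk hm0.le]
  · intro heq
    rw [hk2] at heq
    obtain ⟨ζ, hζ, hz⟩ := hr (by
      have h5 : m * (‖k‖ - 2 / 3) = 0 := by linarith
      rcases mul_eq_zero.1 h5 with h6 | h6
      · exact absurd h6 hm0.ne'
      · linarith)
    refine ⟨ζ, hζ, fun z hz' => ?_⟩
    have a1 := hz z hz'
    rw [hder z hz', hder 0 hb0, h1] at a1
    have hcm : c / ((m : ℝ) : ℂ) ≠ 0 := div_ne_zero hc0 hmc
    have a2 : c / ((m : ℝ) : ℂ) * (deriv h z + e * deriv g z) =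
        c / ((m : ℝ) : ℂ) * ((1 + e * deriv g 0) * Kd (ζ * z)) := by
      unfold Kd
      linear_combination a1
    exact mul_left_cancel₀ hcm a2

/-- **Regularity theorem**: the limits of `|a_n| / n²` and `|a_{-n}| / n²` exist and are `< 2/3` -/
theorem reg_lim (D : Asym) {h g : ℂ → ℂ} (H : HarmU h g) (h0 : h 0 = 0) (g0 : g 0 = 0)
    (h1 : deriv h 0 = 1) :
    ∃ α β : ℝ, α < 2 / 3 ∧ β < 2 / 3 ∧
      Tendsto (fun n : ℕ => ‖cf n h‖ / (n : ℝ) ^ 2) atTop (𝓝 α) ∧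
      Tendsto (fun n : ℕ => ‖cf n g‖ / (n : ℝ) ^ 2) atTop (𝓝 β) := by
  have hb0 : (0 : ℂ) ∈ ball (0 : ℂ) 1 := by simp
  set b : ℂ := deriv g 0 with hb
  have hb1 : ‖b‖ < 1 := by
    have h2 := H.lt 0 hb0
    rwa [h1, norm_one] at h2
  obtain ⟨x1, k1, hx1, t1, -, -⟩ := step2 D H h0 g0 h1 (e := 1) (by simp)
  obtain ⟨x2, k2, hx2, t2, -, -⟩ := step2 D H h0 g0 h1 (e := -1) (by simp)
  obtain ⟨x3, k3, hx3, t3, -, -⟩ := step2 D H h0 g0 h1 (e := I) (by simp)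
  obtain ⟨x, A, B, hx, hA, hB⟩ := common_dir hx1 hx2 hx3 t1 t2 t3
  have hnorm : ∀ (u : ℂ → ℂ) (C : ℂ),
      Tendsto (fun n : ℕ => cf n u / (n : ℂ) ^ 2 * x ^ n) atTop (𝓝 C) →
      Tendsto (fun n : ℕ => ‖cf n u‖ / (n : ℝ) ^ 2) atTop (𝓝 ‖C‖) := by
    intro u C hC
    refine hC.norm.congr fun n => ?_
    rw [norm_mul, norm_div, norm_pow, norm_pow, hx, one_pow, mul_one, Complex.norm_natCast]
  have hval : ∀ e : ℂ, ‖e‖ = 1 → ‖A + e * B‖ ≤ 2 / 3 * ‖1 + e * b‖ ∧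
      (‖A + e * B‖ = 2 / 3 * ‖1 + e * b‖ → ∃ u : ℂ, ‖u‖ = 1 ∧ ∀ z ∈ ball (0 : ℂ) 1,
        deriv h z + e * deriv g z = (1 + e * b) * Kd (u * z)) := by
    intro e he
    obtain ⟨y, k, hy, t, hk, hr⟩ := step2 D H h0 g0 h1 he
    have s1 := t.norm
    have s2 := (hA.add (hB.const_mul e)).norm
    have s3 : ‖A + e * B‖ = ‖k‖ := by
      refine tendsto_nhds_unique s2 (s1.congr fun n => ?_)
      have e1 : cf n h / (n : ℂ) ^ 2 * x ^ n + e * (cf n g / (n : ℂ) ^ 2 * x ^ n) =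
          (cf n h / (n : ℂ) ^ 2 + e * (cf n g / (n : ℂ) ^ 2)) * x ^ n := by ring
      rw [e1, norm_mul, norm_mul, norm_pow, norm_pow, hx, hy]
    rw [s3]
    exact ⟨hk, hr⟩
  have hfin : ¬ ((2 / 3 : ℝ) ≤ ‖A‖ ∨ (2 / 3 : ℝ) ≤ ‖B‖) := by
    intro hAB
    have heq := AB_alg (by norm_num : (0 : ℝ) < 2 / 3) hb1 (fun e he => (hval e he).1) hAB
    have hrig : ∀ e : ℂ, ‖e‖ = 1 → ∃ u : ℂ, ‖u‖ = 1 ∧ ∀ z ∈ ball (0 : ℂ) 1,
        deriv h z + e * deriv g z = (1 + e * b) * Kd (u * z) := fun e he =>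
      (hval e he).2 (heq e he)
    obtain ⟨u, hu, hk⟩ := koebe_pencil hb1 hrig
    exact koebe_not_inj H.hd H.gd hu hk H.inj
  push Not at hfin
  exact ⟨‖A‖, ‖B‖, hfin.1, hfin.2, hnorm h A hA, hnorm g B hB⟩

end Reg66
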