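import Pool.Agent.Hay64.Dich
import Pool.Agent.Reg66.Fin2

set_option autoImplicit false

/-!
# The asymptotic formula for the coefficients of achronal lifts
-/

namespace Reg66

open Complex Metric Set Filter Topology ComplexConjugate AllN24 Hay64
open scoped Nat

variable {L F G R : ℂ → ℂ}

theorem coef_eq_PP (h : AllN24.AchLift L F G R) {ζ : ℂ} (hζ : ‖ζ‖ = 1) {κ : ℝ} {n : ℕ}
    (hn : 1 ≤ n) :
    ζ ^ n * (iteratedDeriv n L 0 / (n.factorial : ℂ)) =
      iteratedDeriv n (PP (fun W => L (ζ * psi I W)) κ) 0 / (n.factorial : ℂ) +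
      (κ : ℂ) / 3 * (-2 * I * (2 * (n : ℂ) ^ 2 + 1)) := by
  have hz0 : (0 : ℂ) ∈ ball (0 : ℂ) 1 := by simp
  set P := PP (fun W => L (ζ * psi I W)) κ with hP
  have hPeq : ∀ z ∈ ball (0 : ℂ) 1, L (ζ * z) = P z + (κ : ℂ) / 3 * (phi I z) ^ 3 := by
    intro z hz
    have hz' : ‖z‖ < 1 := by simpa using hz
    rw [hP]
    show L (ζ * z) = L (ζ * psi I (phi I z)) - (κ : ℂ) / 3 * (phi I z) ^ 3 +
      (κ : ℂ) / 3 * (phi I z) ^ 3
    rw [psi_phi I_mem hz']
    ring
  have hcd : ∀ {f : ℂ → ℂ}, DifferentiableOn ℂ f (ball 0 1) → ContDiffAt ℂ n f 0 := by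
    intro f hf
    exact ((hf.analyticOnNhd isOpen_ball) 0 hz0).contDiffAt
  have hLd : DifferentiableOn ℂ (fun W => L (ζ * psi I W)) HH := zk_comp_diff h.dL hζ
  have hPd : DifferentiableOn ℂ P (ball 0 1) :=
    (comp_diff hLd I_mem).sub ((phi_diff.pow 3).const_mul _)
  have h1 : iteratedDeriv n (fun z => L (ζ * z)) 0 =
      iteratedDeriv n (fun z => P z + (κ : ℂ) / 3 * (phi I z) ^ 3) 0 := iter_eq_of_ball hPeq n
  rw [rot_iter h.dL hζ n 0 hz0, mul_zero] at h1
  have h2 : iteratedDeriv n (fun z => P z + (κ : ℂ) / 3 * (phi I z) ^ 3) 0 =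
      iteratedDeriv n P 0 + iteratedDeriv n (fun z => (κ : ℂ) / 3 * (phi I z) ^ 3) 0 :=
    iteratedDeriv_fun_add (hcd hPd) (hcd ((phi_diff.pow 3).const_mul _))
  have h3 : iteratedDeriv n (fun z => (κ : ℂ) / 3 * (phi I z) ^ 3) 0 =
      (κ : ℂ) / 3 * iteratedDeriv n (fun z => (phi I z) ^ 3) 0 :=
    iteratedDeriv_const_mul_field _ _
  have hnf : (n.factorial : ℂ) ≠ 0 := by exact_mod_cast n.factorial_ne_zero
  rw [← model_coef n hn, ← mul_div_assoc, h1, h2, h3]
  field_simp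

/-- **asymptotic formula**, with the locally uniform blow-up limit at the tip -/
theorem asymU (h : AllN24.AchLift L F G R) :
    ∃ x k : ℂ, ‖x‖ = 1 ∧ Tendsto (fun n : ℕ => cf n L * x ^ n / (n : ℂ) ^ 2) atTop (𝓝 k) ∧
      ‖k‖ ≤ 2 / 3 * ‖deriv L 0‖ ∧
      (‖k‖ = 2 / 3 * ‖deriv L 0‖ → ∃ ζ : ℂ, ‖ζ‖ = 1 ∧ ∀ z ∈ ball (0 : ℂ) 1,
        deriv L z = deriv L 0 * ((1 + ζ * z) ^ 2 / (1 - ζ * z) ^ 4)) ∧
      (k ≠ 0 → ∀ Kc : Set ℂ, IsCompact Kc → Kc ⊆ HH → ∀ δ : ℝ, 0 < δ →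
        ∃ V : ℝ, 1 ≤ V ∧ ∀ v : ℝ, V ≤ v → ∀ W ∈ Kc,
          ‖L (x * psi I (v * W)) / (v : ℂ) ^ 3 - k * I / 4 * W ^ 3‖ ≤ δ) := by
  have hRB := radBound
  have hL0 : 0 < ‖deriv L 0‖ := norm_pos_iff.2 (h.hL 0 (by simp))
  have hE0 : EE 0 = 1 := by simp [EE]
  have hI0 : ∀ {ζ : ℂ}, ‖ζ‖ = 1 → ‖deriv (fun W => L (ζ * psi I W)) I‖ = ‖deriv L 0‖ / 2 := by
    intro ζ hζ
    have h1 := zk_deriv_axis h hζ (le_refl (0 : ℝ)) one_pos
    rw [hE0] at h1
    simp only [ofReal_one, mul_one, ofReal_zero, zero_mul, sub_zero, one_pow] at h1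
    rw [h1]
    ring
  by_cases hpos : ∃ (ζ : ℂ) (a : ℝ), ‖ζ‖ = 1 ∧ 0 < a ∧
      Tendsto (fun v : ℝ => ‖deriv (fun W => L (ζ * psi I W)) (I * v)‖ / v ^ 2) atTop (𝓝 a)
  · obtain ⟨ζ, a, hζ, ha, hlim⟩ := hpos
    have hH := zk_toH h hζ
    have hge : ∀ v : ℝ, 0 < v → a ≤ ‖deriv (fun W => L (ζ * psi I W)) (I * v)‖ / v ^ 2 := by
      intro v hv
      refine le_of_tendsto hlim ?_
      filter_upwards [eventually_ge_atTop v] with w hw
      exact hH.ax3 hRB hv hw
    have hale : a ≤ ‖deriv L 0‖ / 2 := by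
      have h1 := hge 1 one_pos
      simp only [ofReal_one, mul_one, one_pow, div_one] at h1
      rwa [hI0 hζ] at h1
    obtain ⟨F', G', R', β, T⟩ := hH.exists_tip hRB ha hlim
    obtain ⟨σ, hσ, hlims⟩ := T.exists_sign hRB
    have hσ1 : |σ| = 1 := by rcases hσ with h | h <;> rw [h] <;> norm_num
    have hσa : |σ * a| = a := by
      rw [abs_mul, hσ1, one_mul, abs_of_pos ha]
    have hkn : ‖((σ * a : ℝ) : ℂ) / 3 * (-2 * I * 2)‖ = 4 / 3 * a := by
      have e : ((σ * a : ℝ) : ℂ) / 3 * (-2 * I * 2) = ((σ * a * (-4 / 3) : ℝ) : ℂ) * I := by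
        push_cast; ring
      rw [e, norm_mul, Complex.norm_I, mul_one, Complex.norm_real, Real.norm_eq_abs, abs_mul, hσa]
      norm_num
      ring
    refine ⟨ζ, ((σ * a : ℝ) : ℂ) / 3 * (-2 * I * 2), hζ, ?_, ?_, ?_, ?_⟩
    · -- the limit
      set q : ℕ → ℂ := fun n => iteratedDeriv n (PP (fun W => L (ζ * psi I W)) (σ * a)) 0 /
        (n.factorial : ℂ) / (n : ℂ) ^ 2 with hq
      have hq0 : Tendsto q atTop (𝓝 0) := by
        rw [Metric.tendsto_atTop]
        intro ε hε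
        obtain ⟨N, hN⟩ := T.coef hσ hlims (half_pos hε)
        refine ⟨max N 1, fun n hn => ?_⟩
        have hnN : N ≤ n := (le_max_left _ _).trans hn
        have hn1 : 1 ≤ n := (le_max_right _ _).trans hn
        have hn0 : (0 : ℝ) < n := by exact_mod_cast hn1
        have h1 := hN n hnN
        rw [dist_zero_right]
        simp only [hq]
        rw [norm_div, norm_pow, Complex.norm_natCast, div_lt_iff₀ (by positivity)]
        have h2 : 0 < ε / 2 * (n : ℝ) ^ 2 := by positivity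
        have h3 : ε * (n : ℝ) ^ 2 = ε / 2 * (n : ℝ) ^ 2 + ε / 2 * (n : ℝ) ^ 2 := by ring
        rw [h3]
        linarith
      have hinv : Tendsto (fun n : ℕ => (1 : ℂ) / (n : ℂ)) atTop (𝓝 0) := by
        rw [tendsto_zero_iff_norm_tendsto_zero]
        refine tendsto_one_div_atTop_nhds_zero_nat.congr fun n => ?_
        rw [norm_div, norm_one, Complex.norm_natCast]
      have hm : Tendsto (fun n : ℕ => ((σ * a : ℝ) : ℂ) / 3 *
          (-2 * I * (2 + ((1 : ℂ) / (n : ℂ)) ^ 2))) atTop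
          (𝓝 (((σ * a : ℝ) : ℂ) / 3 * (-2 * I * (2 + 0 ^ 2)))) :=
        ((tendsto_const_nhds.add (hinv.pow 2)).const_mul _).const_mul _
      have e0 : (0 : ℂ) + ((σ * a : ℝ) : ℂ) / 3 * (-2 * I * (2 + 0 ^ 2)) =
          ((σ * a : ℝ) : ℂ) / 3 * (-2 * I * 2) := by ring
      have hsum := hq0.add hm
      rw [e0] at hsum
      refine hsum.congr' ?_
      filter_upwards [eventually_ge_atTop 1] with n hn
      have hnc : (n : ℂ) ≠ 0 := by
        have : n ≠ 0 := by omega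
        exact_mod_cast this
      have h1 := coef_eq_PP h hζ (κ := σ * a) hn
      have e1 : cf n L * ζ ^ n = ζ ^ n * (iteratedDeriv n L 0 / (n.factorial : ℂ)) := by
        unfold cf
        ring
      rw [e1, h1]
      simp only [hq]
      field_simp
    · rw [hkn]
      linarith
    · intro heq
      rw [hkn] at heq
      have hae : a = ‖deriv L 0‖ / 2 := by linarith
      refine ⟨conj ζ, by rw [RCLike.norm_conj, hζ], ?_⟩
      apply rigid h hζ
      intro t ht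
      have ht1 : (0 : ℝ) < 1 - t := by linarith [ht.2]
      have ht2 : (0 : ℝ) < 1 + t := by linarith [ht.1]
      have hv : 0 < EE t := EE_pos ht.1 ht.2
      have h1 := hge (EE t) hv
      rw [zk_deriv_axis h hζ ht.1 ht.2] at h1
      have h2 := zk_anti h hRB hζ (le_refl (0 : ℝ)) ht.1 ht.2
      simp only [sub_zero, one_pow, add_zero, div_one, one_mul, ofReal_zero, zero_mul] at h2
      have e1 : ‖deriv L ((t : ℂ) * ζ)‖ * ((1 - t) ^ 2 / 2) / EE t ^ 2 =
          ((1 - t) ^ 4 / (1 + t) ^ 2 * ‖deriv L ((t : ℂ) * ζ)‖) / 2 := by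
        unfold EE
        field_simp
      rw [e1, hae] at h1
      have e2 : ‖deriv L ((t : ℂ) * ζ)‖ * (1 - t) ^ 4 / (1 + t) ^ 2 =
          (1 - t) ^ 4 / (1 + t) ^ 2 * ‖deriv L ((t : ℂ) * ζ)‖ := by ring
      rw [e2]
      apply le_antisymm h2
      linarith
    · intro _ Kc hKc hKH δ hδ
      obtain ⟨V, hV1, hV⟩ := T.unif hlims hKc hKH hδ
      refine ⟨V, hV1, fun v hv W hW => ?_⟩
      have h1 := hV v hv W hW
      have e1 : ((σ * a : ℝ) : ℂ) / 3 * (-2 * I * 2) * I / 4 * W ^ 3 =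
          ((σ * a : ℝ) : ℂ) / 3 * W ^ (2 + 1) := by
        linear_combination (-(((σ * a : ℝ) : ℂ) / 3) * W ^ 3) * Complex.I_sq
      rw [e1]
      exact h1
  · have hzero : ∀ ζ : ℂ, ‖ζ‖ = 1 →
        Tendsto (fun t : ℝ => (1 - t) ^ 4 * ‖deriv L ((t : ℂ) * ζ)‖) (𝓝[<] 1) (𝓝 0) := by
      intro ζ hζ
      obtain ⟨a, ha0, -, hlim⟩ := (zk_toH h hζ).exists_a hRB
      have ha : a = 0 := by
        by_contra hne
        exact hpos ⟨ζ, a, hζ, lt_of_le_of_ne ha0 (Ne.symm hne), hlim⟩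
      rw [ha] at hlim
      have hEE : Tendsto EE (𝓝[<] 1) atTop := by
        have h1 : Tendsto (fun t : ℝ => (1 - t)) (𝓝[<] 1) (𝓝[>] 0) := by
          rw [tendsto_nhdsWithin_iff]
          constructor
          · have : Tendsto (fun t : ℝ => 1 - t) (𝓝 1) (𝓝 (1 - 1)) :=
              (continuous_const.sub continuous_id).tendsto 1
            rw [sub_self] at this
            exact this.mono_left nhdsWithin_le_nhds
          · filter_upwards [self_mem_nhdsWithin] with t ht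
            have : t < 1 := ht
            show (0 : ℝ) < 1 - t
            linarith
        have h2 := (tendsto_inv_nhdsGT_zero (𝕜 := ℝ)).comp h1
        have h3 : Tendsto (fun t : ℝ => 1 + t) (𝓝[<] 1) (𝓝 (1 + 1)) :=
          ((continuous_const.add continuous_id).tendsto 1).mono_left nhdsWithin_le_nhds
        have h4 := h3.pos_mul_atTop (by norm_num) h2
        refine h4.congr fun t => ?_
        simp only [Function.comp_apply, EE, div_eq_mul_inv]
      have h1 := hlim.comp hEE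
      have h2 : Tendsto (fun t : ℝ => 2 * (1 + t) ^ 2) (𝓝[<] 1) (𝓝 (2 * (1 + 1) ^ 2)) := by
        have : Continuous (fun t : ℝ => 2 * (1 + t) ^ 2) := by fun_prop
        exact (this.tendsto 1).mono_left nhdsWithin_le_nhds
      have h3 := h2.mul h1
      rw [mul_zero] at h3
      refine h3.congr' ?_
      have hI : Ioo (0 : ℝ) 1 ∈ 𝓝[<] (1 : ℝ) := Ioo_mem_nhdsLT one_pos
      filter_upwards [hI] with t ht
      have ht1 : (0 : ℝ) < 1 - t := by linarith [ht.2]
      have ht2 : (0 : ℝ) < 1 + t := by linarith [ht.1]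
      simp only [Function.comp_apply]
      rw [zk_deriv_axis h hζ ht.1.le ht.2]
      unfold EE
      field_simp
    have hz := alpha_zero h hRB hzero
    refine ⟨1, 0, norm_one, ?_, ?_, ?_, fun h0 => absurd rfl h0⟩
    · rw [tendsto_zero_iff_norm_tendsto_zero]
      refine hz.congr fun n => ?_
      rw [one_pow, mul_one]
      unfold cf
      rw [norm_div (iteratedDeriv n L 0 / (n.factorial : ℂ)), norm_pow, Complex.norm_natCast]
    · rw [norm_zero]
      positivity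
    · intro h0
      rw [norm_zero] at h0
      exfalso
      have : 0 < 2 / 3 * ‖deriv L 0‖ := by positivity
      linarith

theorem asym : Asym := by
  intro L F G R h
  obtain ⟨x, k, h1, h2, h3, h4, -⟩ := asymU h
  exact ⟨x, k, h1, h2, h3, h4⟩

/-- **Regularity theorem** for univalent harmonic maps of the disc -/
theorem regularity {h g : ℂ → ℂ} (H : Pool.Agent.HU85.HarmU h g) (h0 : h 0 = 0) (g0 : g 0 = 0)
    (h1 : deriv h 0 = 1) :
    ∃ α β : ℝ, α < 2 / 3 ∧ β < 2 / 3 ∧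
      Tendsto (fun n : ℕ => ‖cf n h‖ / (n : ℝ) ^ 2) atTop (𝓝 α) ∧
      Tendsto (fun n : ℕ => ‖cf n g‖ / (n : ℝ) ^ 2) atTop (𝓝 β) :=
  reg_lim asym H h0 g0 h1

end Reg66
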