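import Pool.Agent.Reg66.In
import Pool.Agent.Hay64.Montel

set_option autoImplicit false

/-!
# Limits of normalised achronal lifts
-/

namespace Reg66

open Complex Metric Set Filter Topology ComplexConjugate AllN24

/-- Montel's theorem on the unit disc along an ultrafilter -/
theorem montel (f : ℕ → ℂ → ℂ) (hf : ∀ k, DifferentiableOn ℂ (f k) (ball 0 1))
    (hM : ∀ ρ : ℝ, ρ < 1 → ∃ C : ℝ, ∀ k, ∀ z : ℂ, ‖z‖ ≤ ρ → ‖f k z‖ ≤ C) (U : Ultrafilter ℕ) :
    ∃ g : ℂ → ℂ, DifferentiableOn ℂ g (ball 0 1) ∧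
      TendstoLocallyUniformlyOn f g (U : Filter ℕ) (ball 0 1) := by
  obtain ⟨g, hg1, hg2⟩ := Hay64.montel (Ω := ball (0 : ℂ) 1) isOpen_ball U hf (by
    intro x hx
    have hx1 : ‖x‖ < 1 := by simpa using hx
    obtain ⟨C, hC⟩ := hM ((1 + ‖x‖) / 2) (by linarith)
    have hy : ∀ y ∈ closedBall x ((1 - ‖x‖) / 2), ‖y‖ ≤ (1 + ‖x‖) / 2 := by
      intro y hy
      rw [mem_closedBall, dist_eq_norm] at hy
      calc ‖y‖ = ‖(y - x) + x‖ := by ring_nf
        _ ≤ ‖y - x‖ + ‖x‖ := norm_add_le _ _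
        _ ≤ _ := by linarith
    refine ⟨(1 - ‖x‖) / 2, by linarith, C, ?_, ?_⟩
    · intro y hy'
      rw [mem_ball_zero_iff]
      have := hy y hy'
      linarith
    · exact Eventually.of_forall fun j y hy' => hC j y (hy y hy'))
  exact ⟨g, hg2, hg1⟩

/-- closure of the class under limits -/
theorem closed {U : Filter ℕ} [U.NeBot] (L F G R : ℕ → ℂ → ℂ)
    (h : ∀ k, Nrm (L k) (F k) (G k) (R k)) (L' F' G' R' : ℂ → ℂ)
    (hL : TendstoLocallyUniformlyOn L L' U (ball 0 1))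
    (hF : TendstoLocallyUniformlyOn F F' U (ball 0 1))
    (hG : TendstoLocallyUniformlyOn G G' U (ball 0 1))
    (hR : TendstoLocallyUniformlyOn R R' U (ball 0 1)) : Nrm L' F' G' R' := by
  have h0 : (0 : ℂ) ∈ ball (0 : ℂ) 1 := by simp
  have dL : DifferentiableOn ℂ L' (ball 0 1) :=
    hL.differentiableOn (Eventually.of_forall fun k => (h k).dL) isOpen_ball
  have dF : DifferentiableOn ℂ F' (ball 0 1) :=
    hF.differentiableOn (Eventually.of_forall fun k => (h k).dF) isOpen_ball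
  have dG : DifferentiableOn ℂ G' (ball 0 1) :=
    hG.differentiableOn (Eventually.of_forall fun k => (h k).dG) isOpen_ball
  have dR : DifferentiableOn ℂ R' (ball 0 1) :=
    hR.differentiableOn (Eventually.of_forall fun k => (h k).dR) isOpen_ball
  have tL := hL.deriv (Eventually.of_forall fun k => (h k).dL) isOpen_ball
  have tF := hF.deriv (Eventually.of_forall fun k => (h k).dF) isOpen_ball
  have tG := hG.deriv (Eventually.of_forall fun k => (h k).dG) isOpen_ball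
  have pL : ∀ z ∈ ball (0 : ℂ) 1, Tendsto (fun k => deriv (L k) z) U (𝓝 (deriv L' z)) :=
    fun z hz => tL.tendsto_at hz
  have pF : ∀ z ∈ ball (0 : ℂ) 1, Tendsto (fun k => deriv (F k) z) U (𝓝 (deriv F' z)) :=
    fun z hz => tF.tendsto_at hz
  have pG : ∀ z ∈ ball (0 : ℂ) 1, Tendsto (fun k => deriv (G k) z) U (𝓝 (deriv G' z)) :=
    fun z hz => tG.tendsto_at hz
  have pR : ∀ z ∈ ball (0 : ℂ) 1, Tendsto (fun k => R k z) U (𝓝 (R' z)) :=
    fun z hz => hR.tendsto_at hz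
  have hRim : ∀ z ∈ ball (0 : ℂ) 1, 0 < (R' z).im := by
    intro z hz
    have hz1 : ‖z‖ < 1 := by simpa using hz
    have h1 : Tendsto (fun k => (R k z).im * E ‖z‖) U (𝓝 ((R' z).im * E ‖z‖)) :=
      ((Complex.continuous_im.tendsto _).comp (pR z hz)).mul_const _
    have h2 : 1 ≤ (R' z).im * E ‖z‖ :=
      ge_of_tendsto h1 (Eventually.of_forall fun k => imR_ge (h k) hz)
    have hE := E_pos (norm_nonneg z) hz1
    by_contra hc
    push Not at hc
    nlinarith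
  have hLne : ∀ z ∈ ball (0 : ℂ) 1, deriv L' z ≠ 0 := by
    intro z hz hc
    have h1 : Tendsto (fun k => ‖deriv (L k) z‖ * (1 - ‖z‖ ^ 2) * (8 * E ‖z‖ ^ 3)) U
        (𝓝 (‖deriv L' z‖ * (1 - ‖z‖ ^ 2) * (8 * E ‖z‖ ^ 3))) :=
      ((pL z hz).norm.mul_const _).mul_const _
    have h2 := ge_of_tendsto h1 (Eventually.of_forall fun k => dL_ge (h k) hz)
    rw [hc, norm_zero] at h2
    norm_num at h2
  refine ⟨⟨dL, dF, dG, dR, ?_, ?_, hRim, hLne, ?_⟩, ?_, ?_, ?_, ?_, ?_⟩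
  · intro z hz
    refine tendsto_nhds_unique (pF z hz) ?_
    refine ((pR z hz).mul (pL z hz)).congr fun k => ?_
    exact ((h k).hF z hz).symm
  · intro z hz
    refine tendsto_nhds_unique (pG z hz) ?_
    refine (((pR z hz).pow 2).mul (pL z hz)).congr fun k => ?_
    exact ((h k).hG z hz).symm
  · intro x hx y hy hxy
    have hx1 : ‖x‖ < 1 := by simpa using hx
    have hy1 : ‖y‖ < 1 := by simpa using hy
    have qL : ∀ z ∈ ball (0 : ℂ) 1, Tendsto (fun k => L k z) U (𝓝 (L' z)) :=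
      fun z hz => hL.tendsto_at hz
    have qF : ∀ z ∈ ball (0 : ℂ) 1, Tendsto (fun k => F k z) U (𝓝 (F' z)) :=
      fun z hz => hF.tendsto_at hz
    have qG : ∀ z ∈ ball (0 : ℂ) 1, Tendsto (fun k => G k z) U (𝓝 (G' z)) :=
      fun z hz => hG.tendsto_at hz
    have im : ∀ {f : ℕ → ℂ} {a : ℂ}, Tendsto f U (𝓝 a) → Tendsto (fun k => (f k).im) U (𝓝 a.im) :=
      fun ht => (Complex.continuous_im.tendsto _).comp ht
    have hK : Tendsto (fun k => K (L k) (F k) (G k) x y) U (𝓝 (K L' F' G' x y)) := by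
      unfold K
      exact ((im ((qF x hx).sub (qF y hy))).pow 2).sub
        ((im ((qG x hx).sub (qG y hy))).mul (im ((qL x hx).sub (qL y hy))))
    have h1 : Tendsto (fun k => (1 - ‖x‖ ^ 2) * (1 - ‖y‖ ^ 2) *
        (‖deriv (L k) x‖ * ‖deriv (L k) y‖ * ‖R k x - conj (R k y)‖ ^ 2) * ‖x - y‖ ^ 2) U
        (𝓝 ((1 - ‖x‖ ^ 2) * (1 - ‖y‖ ^ 2) *
          (‖deriv L' x‖ * ‖deriv L' y‖ * ‖R' x - conj (R' y)‖ ^ 2) * ‖x - y‖ ^ 2)) := by
      have hc : Tendsto (fun k => conj (R k y)) U (𝓝 (conj (R' y))) :=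
        (Complex.continuous_conj.tendsto _).comp (pR y hy)
      exact ((((pL x hx).norm.mul (pL y hy).norm).mul
        (((pR x hx).sub hc).norm.pow 2)).const_mul _).mul_const _
    have h2 : Tendsto (fun k => 4 * K (L k) (F k) (G k) x y * ‖1 - conj x * y‖ ^ 2) U
        (𝓝 (4 * K L' F' G' x y * ‖1 - conj x * y‖ ^ 2)) := (hK.const_mul 4).mul_const _
    have h3 := le_of_tendsto_of_tendsto h1 h2
      (Eventually.of_forall fun k => two_point (h k).toAchLift hx hy)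
    have p1 : 0 < ‖deriv L' x‖ := norm_pos_iff.2 (hLne x hx)
    have p2 : 0 < ‖deriv L' y‖ := norm_pos_iff.2 (hLne y hy)
    have p3 : 0 < ‖x - y‖ := norm_pos_iff.2 (sub_ne_zero.2 hxy)
    have p4 : 0 < ‖R' x - conj (R' y)‖ := by
      rw [norm_pos_iff]
      intro hc
      have := congrArg Complex.im hc
      simp only [Complex.sub_im, Complex.conj_im, Complex.zero_im] at this
      have a1 := hRim x hx
      have a2 := hRim y hy
      linarith
    have p5 : 0 < 1 - ‖x‖ ^ 2 := by nlinarith [norm_nonneg x]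
    have p6 : 0 < 1 - ‖y‖ ^ 2 := by nlinarith [norm_nonneg y]
    have p7 : 0 < (1 - ‖x‖ ^ 2) * (1 - ‖y‖ ^ 2) *
          (‖deriv L' x‖ * ‖deriv L' y‖ * ‖R' x - conj (R' y)‖ ^ 2) * ‖x - y‖ ^ 2 := by positivity
    by_contra hc
    push Not at hc
    have p8 : 4 * K L' F' G' x y * ‖1 - conj x * y‖ ^ 2 ≤ 0 :=
      mul_nonpos_of_nonpos_of_nonneg (by linarith) (by positivity)
    linarith
  · exact tendsto_nhds_unique (hL.tendsto_at h0) (tendsto_const_nhds.congr fun k => (h k).L0.symm)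
  · exact tendsto_nhds_unique (hF.tendsto_at h0) (tendsto_const_nhds.congr fun k => (h k).F0.symm)
  · exact tendsto_nhds_unique (hG.tendsto_at h0) (tendsto_const_nhds.congr fun k => (h k).G0.symm)
  · exact tendsto_nhds_unique (pL 0 h0).norm (tendsto_const_nhds.congr fun k => (h k).L1.symm)
  · exact tendsto_nhds_unique (pR 0 h0) (tendsto_const_nhds.congr fun k => (h k).R0.symm)

/-- `Nrm` only depends on the values of `L` on the disc -/
theorem nrm_congr {L M F G R : ℂ → ℂ} (h : Nrm L F G R) (hM : EqOn M L (ball 0 1)) :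
    Nrm M F G R := by
  have hd : ∀ z ∈ ball (0 : ℂ) 1, deriv M z = deriv L z := fun z hz =>
    (hM.eventuallyEq_of_mem (isOpen_ball.mem_nhds hz)).deriv_eq
  have h0 : (0 : ℂ) ∈ ball (0 : ℂ) 1 := by simp
  refine ⟨⟨h.dL.congr hM, h.dF, h.dG, h.dR, ?_, ?_, h.hR, ?_, ?_⟩, ?_, h.F0, h.G0, ?_, h.R0⟩
  · intro z hz
    rw [hd z hz]
    exact h.hF z hz
  · intro z hz
    rw [hd z hz]
    exact h.hG z hz
  · intro z hz
    rw [hd z hz]
    exact h.hL z hz
  · intro x hx y hy hxy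
    have := h.hK x hx y hy hxy
    unfold K at this ⊢
    rw [hM hx, hM hy]
    exact this
  · rw [hM h0]
    exact h.L0
  · rw [hd 0 h0]
    exact h.L1

/-- bound from the derivative -/
theorem bd_of_deriv {f : ℂ → ℂ} (df : DifferentiableOn ℂ f (ball 0 1)) (f0 : f 0 = 0) {ρ C : ℝ}
    (hρ : ρ < 1) (hC : ∀ z : ℂ, ‖z‖ ≤ ρ → ‖deriv f z‖ ≤ C) {z : ℂ} (hz : ‖z‖ ≤ ρ) :
    ‖f z‖ ≤ |C| := by
  have hρ0 : 0 ≤ ρ := (norm_nonneg z).trans hz
  have h1 := Convex.norm_image_sub_le_of_norm_deriv_le (𝕜 := ℂ) (f := f) (C := |C|)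
    (s := closedBall (0 : ℂ) ρ) (x := 0) (y := z) (by
      intro w hw
      have hw1 : w ∈ ball (0 : ℂ) 1 := by
        rw [mem_ball_zero_iff]
        exact lt_of_le_of_lt (mem_closedBall_zero_iff.1 hw) hρ
      exact df.differentiableAt (isOpen_ball.mem_nhds hw1)) (by
      intro w hw
      exact (hC w (mem_closedBall_zero_iff.1 hw)).trans (le_abs_self C)) (convex_closedBall 0 ρ)
      (by simpa using hρ0) (by simpa using hz)
  rw [f0, sub_zero, sub_zero] at h1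
  refine h1.trans ?_
  have : ‖z‖ ≤ 1 := by linarith
  exact mul_le_of_le_one_right (abs_nonneg C) this

/-- coefficients converge under locally uniform convergence -/
theorem cf_tendsto {U : Filter ℕ} {f : ℕ → ℂ → ℂ} {g : ℂ → ℂ}
    (hf : ∀ k, DifferentiableOn ℂ (f k) (ball 0 1))
    (h : TendstoLocallyUniformlyOn f g U (ball 0 1)) (j : ℕ) :
    Tendsto (fun k => cf j (f k)) U (𝓝 (cf j g)) := by
  have key : ∀ j : ℕ, (∀ k, DifferentiableOn ℂ (iteratedDeriv j (f k)) (ball 0 1)) ∧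
      TendstoLocallyUniformlyOn (fun k => iteratedDeriv j (f k)) (iteratedDeriv j g) U
        (ball 0 1) := by
    intro j
    induction j with
    | zero =>
      simp only [iteratedDeriv_zero]
      exact ⟨hf, h⟩
    | succ j ih =>
      simp only [iteratedDeriv_succ]
      refine ⟨fun k => (ih.1 k).deriv isOpen_ball, ?_⟩
      exact ih.2.deriv (Eventually.of_forall ih.1) isOpen_ball
  have h0 : (0 : ℂ) ∈ ball (0 : ℂ) 1 := by simp
  unfold cf
  exact ((key j).2.tendsto_at h0).div_const _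

/-- functions with the same coefficients agree on the disc -/
theorem eqOn_of_cf {f g : ℂ → ℂ} (df : DifferentiableOn ℂ f (ball 0 1))
    (dg : DifferentiableOn ℂ g (ball 0 1)) (h : ∀ j, cf j f = cf j g) :
    EqOn f g (ball 0 1) := by
  intro z hz
  have h1 := Complex.hasSum_taylorSeries_on_ball (c := 0) (r := 1) (f := f) (by simpa using df)
    (z := z) (by simpa using hz)
  have h2 := Complex.hasSum_taylorSeries_on_ball (c := 0) (r := 1) (f := g) (by simpa using dg)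
    (z := z) (by simpa using hz)
  have e : ∀ j : ℕ, iteratedDeriv j f 0 = iteratedDeriv j g 0 := by
    intro j
    have := h j
    unfold cf at this
    have hfac : (j.factorial : ℂ) ≠ 0 := by exact_mod_cast j.factorial_ne_zero
    field_simp at this
    exact this
  simp only [e] at h1
  exact h1.unique h2

/-- a sequence of lifts whose coefficients converge gives a lift of the limit -/
theorem limit_lift (Lk Fk Gk Rk : ℕ → ℂ → ℂ) (h : ∀ k, Nrm (Lk k) (Fk k) (Gk k) (Rk k))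
    {L : ℂ → ℂ} (dL : DifferentiableOn ℂ L (ball 0 1))
    (hcf : ∀ j : ℕ, Tendsto (fun k => cf j (Lk k)) atTop (𝓝 (cf j L))) :
    ∃ F G R : ℂ → ℂ, Nrm L F G R := by
  set U : Ultrafilter ℕ := hyperfilter ℕ with hU
  have hUle : (U : Filter ℕ) ≤ atTop := by
    rw [hU, ← Nat.cofinite_eq_atTop]
    exact hyperfilter_le_cofinite
  have mE : ∀ ρ : ℝ, ρ < 1 → ∀ z : ℂ, ‖z‖ ≤ ρ → E ‖z‖ ≤ E ρ := fun ρ hρ z hz =>
    E_mono (norm_nonneg z) hz hρ
  have bR : ∀ ρ : ℝ, ρ < 1 → ∀ k, ∀ z : ℂ, ‖z‖ ≤ ρ → ‖Rk k z‖ ≤ 8 * E ρ := by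
    intro ρ hρ k z hz
    have hz1 : z ∈ ball (0 : ℂ) 1 := by simpa using lt_of_le_of_lt hz hρ
    exact (R_le (h k) hz1).trans (mul_le_mul_of_nonneg_left (mE ρ hρ z hz) (by norm_num))
  have bL : ∀ ρ : ℝ, ρ < 1 → ∀ k, ∀ z : ℂ, ‖z‖ ≤ ρ →
      ‖deriv (Lk k) z‖ ≤ E ρ ^ 3 / (1 - ρ ^ 2) := by
    intro ρ hρ k z hz
    have hz1 : z ∈ ball (0 : ℂ) 1 := by simpa using lt_of_le_of_lt hz hρ
    have hn := norm_nonneg z
    have hρ0 : 0 ≤ ρ := hn.trans hz
    have h1 := dL_le (h k) hz1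
    have hp : 0 < 1 - ρ ^ 2 := by nlinarith
    rw [le_div_iff₀ hp]
    have hE : 0 ≤ E ‖z‖ := (E_pos hn (lt_of_le_of_lt hz hρ)).le
    calc ‖deriv (Lk k) z‖ * (1 - ρ ^ 2) ≤ ‖deriv (Lk k) z‖ * (1 - ‖z‖ ^ 2) := by
          gcongr
      _ ≤ E ‖z‖ ^ 3 := h1
      _ ≤ E ρ ^ 3 := by
          have := mE ρ hρ z hz
          gcongr
  obtain ⟨L', dL', tL⟩ := montel Lk (fun k => (h k).dL) (by
    intro ρ hρ
    refine ⟨|E ρ ^ 3 / (1 - ρ ^ 2)|, fun k z hz => ?_⟩
    exact bd_of_deriv (h k).dL (h k).L0 hρ (bL ρ hρ k) hz) U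
  obtain ⟨R', dR', tR⟩ := montel Rk (fun k => (h k).dR) (fun ρ hρ => ⟨8 * E ρ, bR ρ hρ⟩) U
  obtain ⟨F', dF', tF⟩ := montel Fk (fun k => (h k).dF) (by
    intro ρ hρ
    refine ⟨|8 * E ρ * (E ρ ^ 3 / (1 - ρ ^ 2))|, fun k z hz => ?_⟩
    refine bd_of_deriv (h k).dF (h k).F0 hρ ?_ hz
    intro w hw
    have hw1 : w ∈ ball (0 : ℂ) 1 := by simpa using lt_of_le_of_lt hw hρ
    rw [(h k).hF w hw1, norm_mul]
    exact mul_le_mul (bR ρ hρ k w hw) (bL ρ hρ k w hw) (norm_nonneg _)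
      ((norm_nonneg _).trans (bR ρ hρ k w hw))) U
  obtain ⟨G', dG', tG⟩ := montel Gk (fun k => (h k).dG) (by
    intro ρ hρ
    refine ⟨|(8 * E ρ) ^ 2 * (E ρ ^ 3 / (1 - ρ ^ 2))|, fun k z hz => ?_⟩
    refine bd_of_deriv (h k).dG (h k).G0 hρ ?_ hz
    intro w hw
    have hw1 : w ∈ ball (0 : ℂ) 1 := by simpa using lt_of_le_of_lt hw hρ
    rw [(h k).hG w hw1, norm_mul, norm_pow]
    have h1 := bR ρ hρ k w hw
    exact mul_le_mul (pow_le_pow_left₀ (norm_nonneg _) h1 2) (bL ρ hρ k w hw) (norm_nonneg _)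
      (by positivity)) U
  have hN : Nrm L' F' G' R' := closed Lk Fk Gk Rk h L' F' G' R' tL tF tG tR
  refine ⟨F', G', R', nrm_congr hN ?_⟩
  refine eqOn_of_cf dL dL' fun j => ?_
  exact tendsto_nhds_unique ((hcf j).mono_left hUle) (cf_tendsto (fun k => (h k).dL) tL j)

/-- normalisation of an achronal lift -/
theorem normalise {L F G R : ℂ → ℂ} (h : AchLift L F G R) (hL0 : L 0 = 0) :
    ∃ F' G' R' : ℂ → ℂ, Nrm (fun z => L z / ((‖deriv L 0‖ : ℝ) : ℂ)) F' G' R' := by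
  have h0 : (0 : ℂ) ∈ ball (0 : ℂ) 1 := by simp
  set l : ℝ := ‖deriv L 0‖ with hl
  have hlpos : 0 < l := norm_pos_iff.2 (h.hL 0 h0)
  set b : ℝ := (R 0).im with hb
  have hbpos : 0 < b := h.hR 0 h0
  set a : ℝ := (R 0).re with ha
  have hlc : (l : ℂ) ≠ 0 := by exact_mod_cast hlpos.ne'
  have hbc : (b : ℂ) ≠ 0 := by exact_mod_cast hbpos.ne'
  have hR0 : R 0 = (a : ℂ) + (b : ℂ) * I := by
    rw [ha, hb]; exact (Complex.re_add_im (R 0)).symm
  refine ⟨fun z => (F z - F 0 - (a : ℂ) * L z) / ((l : ℂ) * (b : ℂ)),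
    fun z => (G z - G 0 - 2 * (a : ℂ) * (F z - F 0) + (a : ℂ) ^ 2 * L z) /
      ((l : ℂ) * (b : ℂ) ^ 2), fun z => (R z - (a : ℂ)) / (b : ℂ), ?_⟩
  have hA : ∀ {f : ℂ → ℂ}, DifferentiableOn ℂ f (ball 0 1) → ∀ z ∈ ball (0 : ℂ) 1,
      HasDerivAt f (deriv f z) z := fun hf z hz =>
    (hf.differentiableAt (isOpen_ball.mem_nhds hz)).hasDerivAt
  have dL' : ∀ z ∈ ball (0 : ℂ) 1, HasDerivAt (fun z => L z / (l : ℂ)) (deriv L z / (l : ℂ)) z :=
    fun z hz => (hA h.dL z hz).div_const _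
  have dF' : ∀ z ∈ ball (0 : ℂ) 1, HasDerivAt (fun z => (F z - F 0 - (a : ℂ) * L z) /
      ((l : ℂ) * (b : ℂ))) ((deriv F z - (a : ℂ) * deriv L z) / ((l : ℂ) * (b : ℂ))) z :=
    fun z hz => (((hA h.dF z hz).sub_const _).sub ((hA h.dL z hz).const_mul _)).div_const _
  have dG' : ∀ z ∈ ball (0 : ℂ) 1, HasDerivAt (fun z => (G z - G 0 - 2 * (a : ℂ) * (F z - F 0) +
      (a : ℂ) ^ 2 * L z) / ((l : ℂ) * (b : ℂ) ^ 2))
      ((deriv G z - 2 * (a : ℂ) * deriv F z + (a : ℂ) ^ 2 * deriv L z) /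
        ((l : ℂ) * (b : ℂ) ^ 2)) z :=
    fun z hz => ((((hA h.dG z hz).sub_const _).sub (((hA h.dF z hz).sub_const _).const_mul _)).add
      ((hA h.dL z hz).const_mul _)).div_const _
  refine ⟨⟨fun z hz => (dL' z hz).differentiableAt.differentiableWithinAt,
    fun z hz => (dF' z hz).differentiableAt.differentiableWithinAt,
    fun z hz => (dG' z hz).differentiableAt.differentiableWithinAt,
    (h.dR.sub_const _).div_const _, ?_, ?_, ?_, ?_, ?_⟩, ?_, ?_, ?_, ?_, ?_⟩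
  · intro z hz
    rw [(dF' z hz).deriv, (dL' z hz).deriv, h.hF z hz]
    field_simp
  · intro z hz
    rw [(dG' z hz).deriv, (dL' z hz).deriv, h.hG z hz, h.hF z hz]
    field_simp
    ring
  · intro z hz
    have := h.hR z hz
    have e : ((R z - (a : ℂ)) / (b : ℂ)).im = (R z).im / b := by
      rw [Complex.div_ofReal_im, Complex.sub_im, Complex.ofReal_im, sub_zero]
    rw [e]
    positivity
  · intro z hz
    rw [(dL' z hz).deriv]
    exact div_ne_zero (h.hL z hz) hlc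
  · intro x hx y hy hxy
    have h1 := h.hK x hx y hy hxy
    have e1 : ((fun z => (F z - F 0 - (a : ℂ) * L z) / ((l : ℂ) * (b : ℂ))) x -
        (fun z => (F z - F 0 - (a : ℂ) * L z) / ((l : ℂ) * (b : ℂ))) y).im =
        ((F x - F y).im - a * (L x - L y).im) / (l * b) := by
      have : ((fun z => (F z - F 0 - (a : ℂ) * L z) / ((l : ℂ) * (b : ℂ))) x -
          (fun z => (F z - F 0 - (a : ℂ) * L z) / ((l : ℂ) * (b : ℂ))) y) =
          ((F x - F y) - (a : ℂ) * (L x - L y)) / (((l * b : ℝ)) : ℂ) := by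
        push_cast; ring
      rw [this, Complex.div_ofReal_im, Complex.sub_im, Complex.im_ofReal_mul]
    have e2 : ((fun z => L z / (l : ℂ)) x - (fun z => L z / (l : ℂ)) y).im =
        (L x - L y).im / l := by
      have : ((fun z => L z / (l : ℂ)) x - (fun z => L z / (l : ℂ)) y) = (L x - L y) / (l : ℂ) := by
        ring
      rw [this, Complex.div_ofReal_im]
    have e3 : ((fun z => (G z - G 0 - 2 * (a : ℂ) * (F z - F 0) + (a : ℂ) ^ 2 * L z) /
        ((l : ℂ) * (b : ℂ) ^ 2)) x - (fun z => (G z - G 0 - 2 * (a : ℂ) * (F z - F 0) +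
        (a : ℂ) ^ 2 * L z) / ((l : ℂ) * (b : ℂ) ^ 2)) y).im =
        ((G x - G y).im - 2 * a * (F x - F y).im + a ^ 2 * (L x - L y).im) / (l * b ^ 2) := by
      have : ((fun z => (G z - G 0 - 2 * (a : ℂ) * (F z - F 0) + (a : ℂ) ^ 2 * L z) /
          ((l : ℂ) * (b : ℂ) ^ 2)) x - (fun z => (G z - G 0 - 2 * (a : ℂ) * (F z - F 0) +
          (a : ℂ) ^ 2 * L z) / ((l : ℂ) * (b : ℂ) ^ 2)) y) =
          ((G x - G y) - ((2 * a : ℝ) : ℂ) * (F x - F y) + ((a ^ 2 : ℝ) : ℂ) * (L x - L y)) /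
            ((l * b ^ 2 : ℝ) : ℂ) := by
        push_cast; ring
      rw [this, Complex.div_ofReal_im, Complex.add_im, Complex.sub_im, Complex.im_ofReal_mul,
        Complex.im_ofReal_mul]
    unfold K at h1 ⊢
    rw [e1, e2, e3]
    have e4 : (((F x - F y).im - a * (L x - L y).im) / (l * b)) ^ 2 -
        ((G x - G y).im - 2 * a * (F x - F y).im + a ^ 2 * (L x - L y).im) / (l * b ^ 2) *
          ((L x - L y).im / l) =
        ((F x - F y).im ^ 2 - (G x - G y).im * (L x - L y).im) / (l * b) ^ 2 := by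
      field_simp
      ring
    rw [e4]
    positivity
  · rw [hL0, zero_div]
  · rw [hL0]
    simp
  · rw [hL0]
    simp
  · rw [(dL' 0 h0).deriv, norm_div, Complex.norm_real, Real.norm_of_nonneg hlpos.le, ← hl,
      div_self hlpos.ne']
  · rw [hR0]
    field_simp
    ring

end Reg66
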