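import Pool.Agent.AllN24.Defs

set_option autoImplicit false

/-!
# Regularity of the coefficients of univalent harmonic maps: common definitions

`Nrm L F G R`: achronal lift on the unit disc with `L 0 = F 0 = G 0 = 0`, `|L'(0)| = 1`, `R 0 = i`.
-/

namespace Reg66

open Complex Metric Set Filter Topology ComplexConjugate AllN24

/-- normalised achronal lifts -/
structure Nrm (L F G R : ℂ → ℂ) : Prop extends AchLift L F G R where
  L0 : L 0 = 0
  F0 : F 0 = 0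
  G0 : G 0 = 0
  L1 : ‖deriv L 0‖ = 1
  R0 : R 0 = I

/-- `E s = (1 + s) / (1 - s)` -/
noncomputable def E (s : ℝ) : ℝ := (1 + s) / (1 - s)

/-- `ell z = (1 - |z|^2) |L'(z)|` -/
noncomputable def ell (L : ℂ → ℂ) (z : ℂ) : ℝ := (1 - ‖z‖ ^ 2) * ‖deriv L z‖

/-- the conformal radius `(1 - |z|^2) |L'(z)| Im R(z)` -/
noncomputable def rr (L R : ℂ → ℂ) (z : ℂ) : ℝ := ell L z * (R z).im

/-- the Koebe function `(z + z^3/3)/(1-z)^3` -/
noncomputable def Kf (z : ℂ) : ℂ := (z + z ^ 3 / 3) / (1 - z) ^ 3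

/-- its derivative -/
noncomputable def Kd (z : ℂ) : ℂ := (1 + z) ^ 2 / (1 - z) ^ 4

/-- `ζ` is a direction of maximal growth of `L` with constant (at least) `δ` -/
def Dir (L : ℂ → ℂ) (ζ : ℂ) (δ : ℝ) : Prop := ∀ s ∈ Ico (0 : ℝ) 1, δ * E s ^ 3 ≤ ell L (s * ζ)

/-- truncated open cone with vertex `1` and axis the real line to the left of `1` -/
def cone (c η : ℝ) : Set ℂ := {z | 0 < ‖1 - z‖ ∧ ‖1 - z‖ < η ∧ c * ‖1 - z‖ ≤ (1 - z).re}

/-- `f z → l` as `z → 1` in every Stolz angle -/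
def CLim (f : ℂ → ℂ) (l : ℂ) : Prop :=
  ∀ c : ℝ, 0 < c → ∀ ε : ℝ, 0 < ε → ∃ η : ℝ, 0 < η ∧ ∀ z ∈ cone c η, ‖f z - l‖ ≤ ε

/-- logarithmic derivative of `L'` -/
noncomputable def TT (L : ℂ → ℂ) (z : ℂ) : ℂ := deriv (deriv L) z / deriv L z

/-- `(1 - z)^4 L'(z)` -/
noncomputable def gg (L : ℂ → ℂ) (z : ℂ) : ℂ := (1 - z) ^ 4 * deriv L z

/-- the harmonic weight is the real part of `(1 - z)/(1 + η - z)` -/
noncomputable def wt (η : ℝ) (z : ℂ) : ℂ := (1 - z) / (1 + (η : ℂ) - z)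

/-- `n`-th Taylor coefficient -/
noncomputable def cf (n : ℕ) (L : ℂ → ℂ) : ℂ := iteratedDeriv n L 0 / (n.factorial : ℂ)

end Reg66
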