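import Pool.Agent.Reg66.Defs
import Pool.Agent.CSH.A2
import Pool.Agent.CSH.Marty3
import Pool.Agent.AllN24.KUpper

set_option autoImplicit false

/-!
# Inputs for normalised achronal lifts
-/

namespace Reg66

open Complex Metric Set Filter Topology ComplexConjugate AllN24

variable {L F G R : ℂ → ℂ}

theorem toSurf (h : AchLift L F G R) : Pool.CSH.Surf (ball 0 1) L F G R :=
  ⟨h.dL, h.dF, h.dG, h.dR, h.hF, h.hG, h.hR, h.hL⟩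

theorem toAchr (h : AchLift L F G R) : Pool.CSH.Achr (ball 0 1) L F G := h.hK

theorem two_point (h : AchLift L F G R) {x y : ℂ} (hx : x ∈ ball (0 : ℂ) 1)
    (hy : y ∈ ball (0 : ℂ) 1) :
    (1 - ‖x‖ ^ 2) * (1 - ‖y‖ ^ 2) * (‖deriv L x‖ * ‖deriv L y‖ * ‖R x - conj (R y)‖ ^ 2) *
      ‖x - y‖ ^ 2 ≤ 4 * K L F G x y * ‖1 - conj x * y‖ ^ 2 :=
  Pool.CSH.two_point (toSurf h) (toAchr h) x hx y hy

theorem psi_le (h : AchLift L F G R) {z : ℂ} (hz : z ∈ ball (0 : ℂ) 1) :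
    ‖Pool.CSH.Psi L R z‖ ≤ 2 :=
  Pool.CSH.psi_le_two (toSurf h) (toAchr h) z hz

theorem rad_upper (h : AchLift L F G R) {z : ℂ} (hz : z ∈ ball (0 : ℂ) 1) :
    (1 - ‖z‖ ^ 2) * ‖deriv L z‖ * (R z).im ≤
      ‖deriv L 0‖ * (R 0).im * ((1 + ‖z‖) / (1 - ‖z‖)) ^ 2 :=
  Pool.CSH.radial_achr (toSurf h) (toAchr h) z hz

/-- precomposition with disc automorphisms -/
theorem achLift_aut (h : AchLift L F G R) {a : ℂ} (ha : ‖a‖ < 1) :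
    AchLift (fun z => L (Pool.CSH.aut a z)) (fun z => F (Pool.CSH.aut a z))
      (fun z => G (Pool.CSH.aut a z)) (fun z => R (Pool.CSH.aut a z)) := by
  have hS := Pool.CSH.surf_aut ha (toSurf h)
  refine ⟨hS.dL, hS.dF, hS.dG, hS.dR, hS.hF, hS.hG, hS.hR, hS.hL, ?_⟩
  intro x hx y hy hxy
  refine h.hK _ (Pool.CSH.aut_mem ha hx) _ (Pool.CSH.aut_mem ha hy) ?_
  intro heq
  have h1 := Pool.CSH.aut_sub ha hx hy
  rw [heq, sub_self] at h1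
  have hc : ((1 - ‖a‖ ^ 2 : ℝ) : ℂ) ≠ 0 := by
    have : 0 < 1 - ‖a‖ ^ 2 := by nlinarith [norm_nonneg a]
    exact_mod_cast this.ne'
  have h2 := Pool.CSH.dn_ne ha hx
  have h3 := Pool.CSH.dn_ne ha hy
  have h4 : x - y ≠ 0 := sub_ne_zero.2 hxy
  exact absurd h1.symm (div_ne_zero (mul_ne_zero hc h4) (mul_ne_zero h2 h3))

theorem rad_lower (h : AchLift L F G R) {z : ℂ} (hz : z ∈ ball (0 : ℂ) 1) :
    ‖deriv L 0‖ * (R 0).im ≤
      (1 - ‖z‖ ^ 2) * ‖deriv L z‖ * (R z).im * ((1 + ‖z‖) / (1 - ‖z‖)) ^ 2 := by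
  have ha : ‖z‖ < 1 := by simpa using hz
  have hA := achLift_aut h ha
  have hmz : -z ∈ ball (0 : ℂ) 1 := by simpa using hz
  have h0 : (0 : ℂ) ∈ ball (0 : ℂ) 1 := by simp
  have h1 := rad_upper hA hmz
  have e0 : Pool.CSH.aut z 0 = z := by simp [Pool.CSH.aut, Pool.CSH.dn]
  have e1 : Pool.CSH.aut z (-z) = 0 := by simp [Pool.CSH.aut]
  have e2 : Pool.CSH.dn z 0 = 1 := by simp [Pool.CSH.dn]
  have e3 : Pool.CSH.dn z (-z) = ((1 - ‖z‖ ^ 2 : ℝ) : ℂ) := by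
    unfold Pool.CSH.dn
    have : ((‖z‖ ^ 2 : ℝ) : ℂ) = z * conj z := by
      rw [Complex.mul_conj, Complex.normSq_eq_norm_sq]
    rw [Complex.ofReal_sub, this]
    push_cast
    ring
  have hpos : 0 < 1 - ‖z‖ ^ 2 := by nlinarith [norm_nonneg z]
  rw [(Pool.CSH.comp_hasDerivAt ha h.dL hmz).deriv, (Pool.CSH.comp_hasDerivAt ha h.dL h0).deriv]
    at h1
  simp only [e0, e1, e2, e3, norm_neg] at h1
  have n1 : ‖deriv L 0 * (((1 - ‖z‖ ^ 2 : ℝ) : ℂ) / ((1 - ‖z‖ ^ 2 : ℝ) : ℂ) ^ 2)‖ =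
      ‖deriv L 0‖ / (1 - ‖z‖ ^ 2) := by
    rw [norm_mul, norm_div, norm_pow, Complex.norm_real, Real.norm_of_nonneg hpos.le]
    field_simp
  have n2 : ‖deriv L z * (((1 - ‖z‖ ^ 2 : ℝ) : ℂ) / 1 ^ 2)‖ = ‖deriv L z‖ * (1 - ‖z‖ ^ 2) := by
    rw [norm_mul, one_pow, div_one, Complex.norm_real, Real.norm_of_nonneg hpos.le]
  rw [n1, n2] at h1
  have e4 : (1 - ‖z‖ ^ 2) * (‖deriv L 0‖ / (1 - ‖z‖ ^ 2)) = ‖deriv L 0‖ := by
    field_simp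
  rw [e4] at h1
  linarith

theorem E_pos {s : ℝ} (hs0 : 0 ≤ s) (hs1 : s < 1) : 0 < E s := by
  unfold E
  exact div_pos (by linarith) (by linarith)

theorem one_le_E {s : ℝ} (hs0 : 0 ≤ s) (hs1 : s < 1) : 1 ≤ E s := by
  unfold E
  rw [le_div_iff₀ (by linarith)]
  linarith

theorem E_mono {s t : ℝ} (hs0 : 0 ≤ s) (hst : s ≤ t) (ht : t < 1) : E s ≤ E t := by
  unfold E
  rw [div_le_div_iff₀ (by linarith) (by linarith)]
  nlinarith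

/-- Harnack for the normalised lifts -/
theorem imR_ge (h : Nrm L F G R) {z : ℂ} (hz : z ∈ ball (0 : ℂ) 1) : 1 ≤ (R z).im * E ‖z‖ := by
  have h1 := harnack_half h.dR h.hR hz
  rw [h.R0] at h1
  have hz1 : ‖z‖ < 1 := by simpa using hz
  have hn := norm_nonneg z
  simp only [Complex.I_im, one_mul] at h1
  unfold E
  rw [mul_div_assoc', le_div_iff₀ (by linarith)]
  rw [div_le_iff₀ (by linarith)] at h1
  linarith

/-- crude bound for `R` -/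
theorem R_le (h : Nrm L F G R) {z : ℂ} (hz : z ∈ ball (0 : ℂ) 1) : ‖R z‖ ≤ 8 * E ‖z‖ := by
  have hz1 : ‖z‖ < 1 := by simpa using hz
  have hn := norm_nonneg z
  have h0 : (0 : ℂ) ∈ ball (0 : ℂ) 1 := by simp
  have h1 := schwarz_pick_half h.dR h.hR hz h0
  rw [h.R0] at h1
  simp only [norm_zero, sub_zero, Complex.I_im] at h1
  have e1 : (1 : ℝ) - 0 ^ 2 = 1 := by norm_num
  rw [e1, mul_one, mul_one] at h1
  have h2 : (R z).im ≤ 1 + ‖R z - I‖ := by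
    have h3 := Complex.abs_im_le_norm (R z - I)
    simp only [Complex.sub_im, Complex.I_im] at h3
    have := le_abs_self ((R z).im - 1)
    linarith
  set t := ‖R z - I‖ with ht
  set ρ := ‖z‖ with hρ
  have ht0 : 0 ≤ t := norm_nonneg _
  have hR0 := h.hR z hz
  have h4 : t ^ 2 * (1 - ρ) ≤ 4 * (1 + t) := by
    have h5 : t ^ 2 * (1 - ρ ^ 2) ≤ 4 * (1 + t) * ρ ^ 2 := by
      refine h1.trans ?_
      gcongr
    have h6 : (1 - ρ) ≤ 1 - ρ ^ 2 := by nlinarith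
    have h7 : ρ ^ 2 ≤ 1 := by nlinarith
    calc t ^ 2 * (1 - ρ) ≤ t ^ 2 * (1 - ρ ^ 2) := by gcongr
      _ ≤ 4 * (1 + t) * ρ ^ 2 := h5
      _ ≤ 4 * (1 + t) * 1 := by gcongr
      _ = 4 * (1 + t) := mul_one _
  have h8 : ‖R z‖ ≤ 1 + t := by
    calc ‖R z‖ = ‖(R z - I) + I‖ := by ring_nf
      _ ≤ t + ‖I‖ := norm_add_le _ _
      _ = 1 + t := by rw [Complex.norm_I]; ring
  refine h8.trans ?_
  unfold E
  rw [mul_div_assoc', le_div_iff₀ (by linarith)]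
  by_cases hc : t ≤ 5
  · nlinarith
  · push Not at hc
    have h9 : t * (1 - ρ) ≤ 4 * (1 + t) / t := by
      rw [le_div_iff₀ (by linarith)]
      nlinarith
    have h10 : 4 * (1 + t) / t ≤ 5 := by
      rw [div_le_iff₀ (by linarith)]
      nlinarith
    nlinarith

theorem dL_le (h : Nrm L F G R) {z : ℂ} (hz : z ∈ ball (0 : ℂ) 1) :
    ‖deriv L z‖ * (1 - ‖z‖ ^ 2) ≤ E ‖z‖ ^ 3 := by
  have hz1 : ‖z‖ < 1 := by simpa using hz
  have hn := norm_nonneg z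
  have h1 := rad_upper h.toAchLift hz
  rw [h.L1, h.R0] at h1
  simp only [Complex.I_im, one_mul] at h1
  have h2 := imR_ge h hz
  have hE := E_pos hn hz1
  have hpos : 0 < 1 - ‖z‖ ^ 2 := by nlinarith [norm_nonneg z]
  have hm := norm_nonneg (deriv L z)
  have h3 : (1 - ‖z‖ ^ 2) * ‖deriv L z‖ * (R z).im ≤ E ‖z‖ ^ 2 := h1
  calc ‖deriv L z‖ * (1 - ‖z‖ ^ 2) ≤ ‖deriv L z‖ * (1 - ‖z‖ ^ 2) * ((R z).im * E ‖z‖) :=
        le_mul_of_one_le_right (by positivity) h2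
    _ = (1 - ‖z‖ ^ 2) * ‖deriv L z‖ * (R z).im * E ‖z‖ := by ring
    _ ≤ E ‖z‖ ^ 2 * E ‖z‖ := by gcongr
    _ = E ‖z‖ ^ 3 := by ring

theorem dL_ge (h : Nrm L F G R) {z : ℂ} (hz : z ∈ ball (0 : ℂ) 1) :
    1 ≤ ‖deriv L z‖ * (1 - ‖z‖ ^ 2) * (8 * E ‖z‖ ^ 3) := by
  have hz1 : ‖z‖ < 1 := by simpa using hz
  have hn := norm_nonneg z
  have h1 := rad_lower h.toAchLift hz
  rw [h.L1, h.R0] at h1
  simp only [Complex.I_im, one_mul] at h1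
  have h2 : (R z).im ≤ 8 * E ‖z‖ := (le_abs_self _).trans ((Complex.abs_im_le_norm _).trans (R_le h hz))
  have hE := E_pos hn hz1
  have hpos : 0 < 1 - ‖z‖ ^ 2 := by nlinarith [norm_nonneg z]
  have hm := norm_nonneg (deriv L z)
  have h3 : 1 ≤ (1 - ‖z‖ ^ 2) * ‖deriv L z‖ * (R z).im * E ‖z‖ ^ 2 := h1
  calc (1 : ℝ) ≤ (1 - ‖z‖ ^ 2) * ‖deriv L z‖ * (R z).im * E ‖z‖ ^ 2 := h3
    _ ≤ (1 - ‖z‖ ^ 2) * ‖deriv L z‖ * (8 * E ‖z‖) * E ‖z‖ ^ 2 := by gcongr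
    _ = ‖deriv L z‖ * (1 - ‖z‖ ^ 2) * (8 * E ‖z‖ ^ 3) := by ring

end Reg66
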