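import Pool.Agent.Reg66.TipEq

set_option autoImplicit false

/-!
# Regularity theorem with equal limits and the sharp constant
-/

namespace Reg66

open Complex Metric Set Filter Topology ComplexConjugate AllN24 Hay64
open scoped Nat

/-- the asymptotic formula and the blow-up limit for `h + e g` -/
theorem step3 {h g : ℂ → ℂ} (H : Pool.Agent.HU85.HarmU h g) (h0 : h 0 = 0) (g0 : g 0 = 0)
    (h1 : deriv h 0 = 1) {e : ℂ} (he : ‖e‖ = 1) :
    ∃ x k : ℂ, ‖x‖ = 1 ∧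
      Tendsto (fun n : ℕ => (cf n h / (n : ℂ) ^ 2 + e * (cf n g / (n : ℂ) ^ 2)) * x ^ n)
        atTop (𝓝 k) ∧
      ‖k‖ ≤ 2 / 3 * ‖1 + e * deriv g 0‖ ∧
      (‖k‖ = 2 / 3 * ‖1 + e * deriv g 0‖ → ∃ u : ℂ, ‖u‖ = 1 ∧ ∀ z ∈ ball (0 : ℂ) 1,
        deriv h z + e * deriv g z = (1 + e * deriv g 0) * Kd (u * z)) ∧
      (k ≠ 0 → ∀ Kc : Set ℂ, IsCompact Kc → Kc ⊆ HH → ∀ δ : ℝ, 0 < δ →
        ∃ V : ℝ, 1 ≤ V ∧ ∀ v : ℝ, V ≤ v → ∀ W ∈ Kc,
          ‖(h (x * psi I (v * W)) + e * g (x * psi I (v * W))) / (v : ℂ) ^ 3 -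
            k * I / 4 * W ^ 3‖ ≤ δ) := by
  have hb0 : (0 : ℂ) ∈ ball (0 : ℂ) 1 := by simp
  obtain ⟨c, hc, F, G, R, N⟩ := lift H h0 g0 he
  rw [h1] at N
  set m : ℝ := ‖1 + e * deriv g 0‖ with hm
  have hm0 : 0 < m := by
    have h2 := H.lt 0 hb0
    rw [h1, norm_one] at h2
    have h3 := norm_sub_norm_le (1 : ℂ) (-(e * deriv g 0))
    rw [norm_one, norm_neg, norm_mul, he, one_mul, sub_neg_eq_add] at h3
    linarith
  have hmc : ((m : ℝ) : ℂ) ≠ 0 := by exact_mod_cast hm0.ne'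
  have hc0 : c ≠ 0 := by
    rintro rfl
    simp at hc
  have hder : ∀ z ∈ ball (0 : ℂ) 1, deriv (fun z => c * (h z + e * g z) / ((m : ℝ) : ℂ)) z =
      c * (deriv h z + e * deriv g z) / ((m : ℝ) : ℂ) := by
    intro z hz
    have a1 := (H.hd.differentiableAt (isOpen_ball.mem_nhds hz)).hasDerivAt
    have a2 := (H.gd.differentiableAt (isOpen_ball.mem_nhds hz)).hasDerivAt
    exact (((a1.add (a2.const_mul e)).const_mul c).div_const _).deriv
  have hcf : ∀ n : ℕ, cf n (fun z => c * (h z + e * g z) / ((m : ℝ) : ℂ)) =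
      c / ((m : ℝ) : ℂ) * (cf n h + e * cf n g) := by
    intro n
    have e1 : (fun z => c * (h z + e * g z) / ((m : ℝ) : ℂ)) =
        fun z => (c / ((m : ℝ) : ℂ)) * (h z + e * g z) := by
      funext z
      ring
    rw [e1, cf_smul, cf_add n H.hd (H.gd.const_mul e), cf_smul]
  obtain ⟨x, k, hx, hlim, hk, hr, hu⟩ := asymU N.toAchLift
  rw [N.L1] at hk hr
  have hk2 : ‖((m : ℝ) : ℂ) / c * k‖ = m * ‖k‖ := by
    rw [norm_mul, norm_div, hc, Complex.norm_real, Real.norm_of_nonneg hm0.le, div_one]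
  refine ⟨x, ((m : ℝ) : ℂ) / c * k, hx, ?_, ?_, ?_, ?_⟩
  · refine (hlim.const_mul (((m : ℝ) : ℂ) / c)).congr fun n => ?_
    rw [hcf n]
    field_simp
  · rw [hk2]
    nlinarith [mul_le_mul_of_nonneg_left hk hm0.le]
  · intro heq
    rw [hk2] at heq
    obtain ⟨ζ, hζ, hz⟩ := hr (by
      have h5 : m * (‖k‖ - 2 / 3) = 0 := by linarith
      rcases mul_eq_zero.1 h5 with h6 | h6
      · exact absurd h6 hm0.ne'
      · linarith)
    refine ⟨ζ, hζ, fun z hz' => ?_⟩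
    have a1 := hz z hz'
    rw [hder z hz', hder 0 hb0, h1] at a1
    have hcm : c / ((m : ℝ) : ℂ) ≠ 0 := div_ne_zero hc0 hmc
    have a2 : c / ((m : ℝ) : ℂ) * (deriv h z + e * deriv g z) =
        c / ((m : ℝ) : ℂ) * ((1 + e * deriv g 0) * Kd (ζ * z)) := by
      unfold Kd
      linear_combination a1
    exact mul_left_cancel₀ hcm a2
  · intro hk0 Kc hKc hKH δ hδ
    have hk0' : k ≠ 0 := by
      rintro rfl
      exact hk0 (by ring)
    obtain ⟨V, hV1, hV⟩ := hu hk0' Kc hKc hKH (δ / m) (by positivity)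
    refine ⟨V, hV1, fun v hv W hW => ?_⟩
    have a1 := hV v hv W hW
    have e2 : (h (x * psi I (v * W)) + e * g (x * psi I (v * W))) / (v : ℂ) ^ 3 -
        ((m : ℝ) : ℂ) / c * k * I / 4 * W ^ 3 = ((m : ℝ) : ℂ) / c *
        (c * (h (x * psi I (v * W)) + e * g (x * psi I (v * W))) / ((m : ℝ) : ℂ) / (v : ℂ) ^ 3 -
          k * I / 4 * W ^ 3) := by
      field_simp
    rw [e2, norm_mul, norm_div, hc, Complex.norm_real, Real.norm_of_nonneg hm0.le, div_one]
    rw [le_div_iff₀ hm0] at a1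
    linarith

/-- the direction of a nonzero limit is unique -/
theorem same_dir {w : ℕ → ℂ} {x y k k' : ℂ} (hx : ‖x‖ = 1) (hy : ‖y‖ = 1)
    (h1 : Tendsto (fun n : ℕ => w n * x ^ n) atTop (𝓝 k))
    (h2 : Tendsto (fun n : ℕ => w n * y ^ n) atTop (𝓝 k')) (hk : k ≠ 0) : x = y ∧ k = k' := by
  have hx0 : x ≠ 0 := by
    rintro rfl
    simp at hx
  have hy0 : y ≠ 0 := by
    rintro rfl
    simp at hy
  have hn : ‖k'‖ = ‖k‖ := by
    refine tendsto_nhds_unique h2.norm (h1.norm.congr fun n => ?_)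
    rw [norm_mul, norm_mul, norm_pow, norm_pow, hx, hy]
  have hk' : k' ≠ 0 := by
    rw [← norm_pos_iff, hn]
    exact norm_pos_iff.2 hk
  have h3 := h2.div h1 hk
  have hev : ∀ᶠ n in atTop, w n * x ^ n ≠ 0 := h1.eventually_ne hk
  have h4 : Tendsto (fun n : ℕ => (y / x) ^ n) atTop (𝓝 (k' / k)) := by
    refine h3.congr' ?_
    filter_upwards [hev] with n hn'
    have hw : w n ≠ 0 := left_ne_zero_of_mul hn'
    rw [div_pow]
    show w n * y ^ n / (w n * x ^ n) = y ^ n / x ^ n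
    rw [mul_div_mul_left _ _ hw]
  have h5 := (tendsto_add_atTop_iff_nat 1).2 h4
  have h6 : Tendsto (fun n : ℕ => (y / x) ^ (n + 1)) atTop (𝓝 (y / x * (k' / k))) := by
    refine (h4.const_mul (y / x)).congr fun n => ?_
    rw [pow_succ]
    ring
  have h7 := tendsto_nhds_unique h5 h6
  have h8 : k' / k ≠ 0 := div_ne_zero hk' hk
  have h9 : y / x = 1 := by
    have : (y / x - 1) * (k' / k) = 0 := by linear_combination -h7
    rcases mul_eq_zero.1 this with h | h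
    · linear_combination h
    · exact absurd h h8
  have h10 : x = y := by
    rw [div_eq_one_iff_eq hx0] at h9
    exact h9.symm
  subst h10
  exact ⟨rfl, tendsto_nhds_unique h1 h2⟩

/-- **Regularity theorem** for univalent harmonic maps of the disc: `a_n` and `b_n` are
asymptotically `A x^{-n} n²` and `B x^{-n} n²` with `|x| = 1` and `|A| = |B| ≤ (1 + |b_1|) / 3`. -/
theorem regularity2 {h g : ℂ → ℂ} (H : Pool.Agent.HU85.HarmU h g) (h0 : h 0 = 0) (g0 : g 0 = 0)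
    (h1 : deriv h 0 = 1) :
    ∃ x A B : ℂ, ‖x‖ = 1 ∧ ‖B‖ = ‖A‖ ∧ ‖A‖ ≤ (1 + ‖deriv g 0‖) / 3 ∧
      Tendsto (fun n : ℕ => cf n h / (n : ℂ) ^ 2 * x ^ n) atTop (𝓝 A) ∧
      Tendsto (fun n : ℕ => cf n g / (n : ℂ) ^ 2 * x ^ n) atTop (𝓝 B) ∧
      (‖A‖ = (1 + ‖deriv g 0‖) / 3 → ∃ e u : ℂ, ‖e‖ = 1 ∧ ‖u‖ = 1 ∧ ∀ z ∈ ball (0 : ℂ) 1,
        deriv h z + e * deriv g z = (1 + ‖deriv g 0‖) * Kd (u * z)) := by
  have hb0 : (0 : ℂ) ∈ ball (0 : ℂ) 1 := by simp
  set b : ℂ := deriv g 0 with hb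
  have hb1 : ‖b‖ < 1 := by
    have h2 := H.lt 0 hb0
    rwa [h1, norm_one] at h2
  obtain ⟨x1, k1, hx1, t1, -, -, u1⟩ := step3 H h0 g0 h1 (e := 1) (by simp)
  obtain ⟨x2, k2, hx2, t2, -, -, u2⟩ := step3 H h0 g0 h1 (e := -1) (by simp)
  obtain ⟨x3, k3, hx3, t3, -, -, u3⟩ := step3 H h0 g0 h1 (e := I) (by simp)
  obtain ⟨x, A, B, hx, hA, hB⟩ := common_dir hx1 hx2 hx3 t1 t2 t3
  have hAe : ∀ e : ℂ, Tendsto (fun n : ℕ => (cf n h / (n : ℂ) ^ 2 + e * (cf n g / (n : ℂ) ^ 2)) *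
      x ^ n) atTop (𝓝 (A + e * B)) := by
    intro e
    refine (hA.add (hB.const_mul e)).congr fun n => ?_
    ring
  have hval : ∀ e : ℂ, ‖e‖ = 1 → ‖A + e * B‖ ≤ 2 / 3 * ‖1 + e * b‖ ∧
      (‖A + e * B‖ = 2 / 3 * ‖1 + e * b‖ → ∃ u : ℂ, ‖u‖ = 1 ∧ ∀ z ∈ ball (0 : ℂ) 1,
        deriv h z + e * deriv g z = (1 + e * b) * Kd (u * z)) := by
    intro e he
    obtain ⟨y, k, hy, t, hk, hr, -⟩ := step3 H h0 g0 h1 he
    have s3 : ‖A + e * B‖ = ‖k‖ := by
      refine tendsto_nhds_unique (hAe e).norm (t.norm.congr fun n => ?_)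
      rw [norm_mul, norm_mul, norm_pow, norm_pow, hx, hy]
    rw [s3]
    exact ⟨hk, hr⟩
  -- blow-up for every `e` with `A + e B ≠ 0`
  have hblow : ∀ e : ℂ, ‖e‖ = 1 → A + e * B ≠ 0 →
      ∀ Kc : Set ℂ, IsCompact Kc → Kc ⊆ HH → ∀ δ : ℝ, 0 < δ →
        ∃ V : ℝ, 1 ≤ V ∧ ∀ v : ℝ, V ≤ v → ∀ W ∈ Kc,
          ‖(h (x * psi I (v * W)) + e * g (x * psi I (v * W))) / (v : ℂ) ^ 3 -
            (A + e * B) * I / 4 * W ^ 3‖ ≤ δ := by
    intro e he hne
    obtain ⟨y, k, hy, t, -, -, hu⟩ := step3 H h0 g0 h1 he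
    obtain ⟨hxy, hk⟩ := same_dir hx hy (hAe e) t hne
    subst hxy
    subst hk
    exact hu hne
  -- two good values of `e` give the blow-up of `h` and `g`
  have htwo : ∀ e1 e2 : ℂ, ‖e1‖ = 1 → ‖e2‖ = 1 → e1 ≠ e2 → A + e1 * B ≠ 0 → A + e2 * B ≠ 0 →
      ‖A‖ = ‖B‖ := by
    intro e1 e2 he1 he2 h12 hn1 hn2
    have hD : 0 < ‖e2 - e1‖ := norm_pos_iff.2 (sub_ne_zero.2 (Ne.symm h12))
    have hDc : e2 - e1 ≠ 0 := sub_ne_zero.2 (Ne.symm h12)
    have hfin := no_tip H (x := x) (A := A * I / 4) (B := B * I / 4) hx (by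
      intro Kc hKc hKH δ hδ
      obtain ⟨V1, hV1, hW1⟩ := hblow e1 he1 hn1 Kc hKc hKH (δ * ‖e2 - e1‖ / 2) (by positivity)
      obtain ⟨V2, hV2, hW2⟩ := hblow e2 he2 hn2 Kc hKc hKH (δ * ‖e2 - e1‖ / 2) (by positivity)
      refine ⟨max V1 V2, le_max_of_le_left hV1, fun v hv W hW => ?_⟩
      have a1 := hW1 v ((le_max_left _ _).trans hv) W hW
      have a2 := hW2 v ((le_max_right _ _).trans hv) W hW
      set P := (h (x * psi I (v * W)) + e1 * g (x * psi I (v * W))) / (v : ℂ) ^ 3 -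
            (A + e1 * B) * I / 4 * W ^ 3 with hP
      set Q := (h (x * psi I (v * W)) + e2 * g (x * psi I (v * W))) / (v : ℂ) ^ 3 -
            (A + e2 * B) * I / 4 * W ^ 3 with hQ
      constructor
      · have e3 : h (x * psi I (v * W)) / (v : ℂ) ^ 3 - A * I / 4 * W ^ 3 =
            (e2 * P - e1 * Q) / (e2 - e1) := by
          rw [eq_div_iff hDc, hP, hQ]
          ring
        rw [e3, norm_div, div_le_iff₀ hD]
        refine (norm_sub_le _ _).trans ?_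
        rw [norm_mul, norm_mul, he1, he2, one_mul, one_mul]
        linarith
      · have e3 : g (x * psi I (v * W)) / (v : ℂ) ^ 3 - B * I / 4 * W ^ 3 =
            (Q - P) / (e2 - e1) := by
          rw [eq_div_iff hDc, hP, hQ]
          ring
        rw [e3, norm_div, div_le_iff₀ hD]
        refine (norm_sub_le _ _).trans ?_
        linarith)
    rw [norm_div, norm_div, norm_mul, norm_mul, Complex.norm_I, mul_one, mul_one] at hfin
    have h4 : (0 : ℝ) < ‖(4 : ℂ)‖ := by norm_num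
    exact (div_left_inj' h4.ne').1 hfin
  have hAB : ‖A‖ = ‖B‖ := by
    by_cases hz1 : A + 1 * B = 0
    · have hA1 : A = -B := by linear_combination hz1
      rw [hA1, norm_neg]
    by_cases hz2 : A + -1 * B = 0
    · have hA1 : A = B := by linear_combination hz2
      rw [hA1]
    exact htwo 1 (-1) (by simp) (by simp) (by
      intro h
      have := congrArg Complex.re h
      norm_num at this) hz1 hz2
  -- the aligned value of `e`
  have hexe : ∃ e : ℂ, ‖e‖ = 1 ∧ ‖A + e * B‖ = 2 * ‖A‖ := by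
    by_cases hA0 : A = 0
    · refine ⟨1, norm_one, ?_⟩
      have hB0 : B = 0 := by
        rw [hA0, norm_zero] at hAB
        exact norm_eq_zero.1 hAB.symm
      rw [hA0, hB0]
      simp
    · have hB0 : B ≠ 0 := by
        rw [← norm_pos_iff, ← hAB]
        exact norm_pos_iff.2 hA0
      refine ⟨A / B, by rw [norm_div, hAB, div_self (norm_pos_iff.2 hB0).ne'], ?_⟩
      have e1 : A + A / B * B = 2 * A := by
        rw [div_mul_cancel₀ A hB0]
        ring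
      rw [e1, norm_mul, Complex.norm_ofNat]
  obtain ⟨e, he, heA⟩ := hexe
  have hle := (hval e he).1
  have hab : ‖1 + e * b‖ ≤ 1 + ‖b‖ := by
    refine (norm_add_le _ _).trans ?_
    rw [norm_one, norm_mul, he, one_mul]
  refine ⟨x, A, B, hx, hAB.symm, ?_, hA, hB, ?_⟩
  · rw [heA] at hle
    linarith
  · intro heq
    have h5 : ‖A + e * B‖ = 2 / 3 * (1 + ‖b‖) := by rw [heA, heq]; ring
    have h6 : ‖1 + e * b‖ = 1 + ‖b‖ := by
      apply le_antisymm hab
      linarith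
    obtain ⟨u, hu, hz⟩ := (hval e he).2 (by rw [h5, h6])
    have h7 : 1 + e * b = ((1 + ‖b‖ : ℝ) : ℂ) := by
      -- equality in the triangle inequality
      have h8 : ‖e * b‖ = ‖b‖ := by rw [norm_mul, he, one_mul]
      have h9 : (e * b).re ^ 2 + (e * b).im ^ 2 = ‖b‖ ^ 2 := by
        rw [← h8, Complex.sq_norm, normSq_apply]
        ring
      have h10 : (1 + (e * b).re) ^ 2 + (e * b).im ^ 2 = (1 + ‖b‖) ^ 2 := by
        have := congrArg (fun t => t ^ 2) h6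
        simp only [Complex.sq_norm, normSq_apply, add_re, add_im, one_re, one_im] at this
        linarith
      have h11 : (e * b).re = ‖b‖ := by linarith
      have h12 : (e * b).im = 0 := by
        have : (e * b).im ^ 2 = 0 := by
          rw [h11] at h9
          linarith
        exact pow_eq_zero_iff (two_ne_zero) |>.1 this
      apply Complex.ext
      · rw [add_re, one_re, h11, Complex.ofReal_re]
      · rw [add_im, one_im, h12, Complex.ofReal_im]
        norm_num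
    refine ⟨e, u, he, hu, fun z hz' => ?_⟩
    rw [hz z hz', h7]
    push_cast
    rfl

end Reg66
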