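import Pool.Agent.Reg66.AsymP

set_option autoImplicit false

/-!
# At a direction of positive index the two leading coefficients have equal modulus
-/

namespace Reg66

open Complex Metric Set Filter Topology ComplexConjugate AllN24 Hay64
open scoped Nat

/-- an interior minimum of `|u + conj w - p|` is a zero, if the Jacobian is positive -/
theorem min_zero {u w : ℂ → ℂ} {Y p u' w' : ℂ} (hu : HasDerivAt u u' Y) (hw : HasDerivAt w w' Y)
    (hlt : ‖w'‖ < ‖u'‖) (hmin : IsLocalMin (fun W => ‖u W + conj (w W) - p‖ ^ 2) Y) :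
    u Y + conj (w Y) = p := by
  set D : ℂ := u Y + conj (w Y) - p with hD
  have key : ∀ ξ : ℂ, inner ℝ D (u' * ξ + conj (w' * ξ)) = (0 : ℝ) := by
    intro ξ
    have hl : HasDerivAt (fun t : ℝ => Y + (t : ℂ) * ξ) ξ 0 := by
      have h1 : HasDerivAt (fun t : ℝ => (t : ℂ)) 1 0 := Complex.ofRealCLM.hasDerivAt
      simpa using (h1.mul_const ξ).const_add Y
    have hl0 : Y + ((0 : ℝ) : ℂ) * ξ = Y := by simp
    have hu2 : HasDerivAt (fun t : ℝ => u (Y + (t : ℂ) * ξ)) (u' * ξ) 0 := by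
      have h2 : HasDerivAt u u' (Y + ((0 : ℝ) : ℂ) * ξ) := by rw [hl0]; exact hu
      exact h2.comp_of_eq (0 : ℝ) hl rfl
    have hw2 : HasDerivAt (fun t : ℝ => w (Y + (t : ℂ) * ξ)) (w' * ξ) 0 := by
      have h2 : HasDerivAt w w' (Y + ((0 : ℝ) : ℂ) * ξ) := by rw [hl0]; exact hw
      exact h2.comp_of_eq (0 : ℝ) hl rfl
    have hw3 : HasDerivAt (fun t : ℝ => conj (w (Y + (t : ℂ) * ξ))) (conj (w' * ξ)) 0 := hw2.star
    have hg := ((hu2.add hw3).sub_const p).norm_sq
    have hm : IsLocalMin (fun t : ℝ => ‖u (Y + (t : ℂ) * ξ) + conj (w (Y + (t : ℂ) * ξ)) - p‖ ^ 2)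
        0 := by
      have hc : ContinuousAt (fun t : ℝ => Y + (t : ℂ) * ξ) 0 := hl.continuousAt
      have h3 : Tendsto (fun t : ℝ => Y + (t : ℂ) * ξ) (𝓝 0) (𝓝 Y) := by
        have := hc.tendsto
        rwa [hl0] at this
      have h4 := h3.eventually hmin
      filter_upwards [h4] with t ht
      simpa [hl0] using ht
    have h5 := hm.hasDerivAt_eq_zero hg
    simp only [hl0, Pi.add_apply] at h5
    have h6 : (2 : ℝ) * inner ℝ D (u' * ξ + conj (w' * ξ)) = 0 := by
      simpa [hD] using h5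
    linarith
  have k1 := key 1
  have k2 := key I
  simp only [Complex.inner, map_add, map_mul, Complex.conj_I, mul_one, map_one] at k1 k2
  have hS : conj D * u' + D * w' = 0 := by
    apply Complex.ext
    · simp only [add_re, add_im, mul_re, conj_re, conj_im, zero_re] at k1 ⊢
      linarith
    · simp only [add_re, mul_re, mul_im, add_im, conj_re, conj_im, zero_im, I_re, I_im, neg_re,
        neg_im] at k2 ⊢
      linarith
  have h7 : ‖D‖ * ‖u'‖ = ‖D‖ * ‖w'‖ := by
    have h8 : conj D * u' = -(D * w') := by linear_combination hS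
    have h9 := congrArg norm h8
    rwa [norm_mul, norm_neg, norm_mul, RCLike.norm_conj] at h9
  have h10 : D = 0 := by
    by_contra hne
    have h11 : 0 < ‖D‖ := norm_pos_iff.2 hne
    have := mul_left_cancel₀ h11.ne' h7
    linarith
  rw [hD] at h10
  linear_combination h10

/-- the two cube roots of `i` in the upper half-plane -/
noncomputable def wr (s : ℝ) : ℂ := ⟨s * (Real.sqrt 3 / 2), 1 / 2⟩

theorem wr_cube {s : ℝ} (hs : s ^ 2 = 1) (W : ℂ) :
    W ^ 3 - I = (W - wr s) * (W - wr (-s)) * (W + I) := by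
  have h3 : Real.sqrt 3 ^ 2 = 3 := Real.sq_sqrt (by norm_num)
  have e1 : wr s + wr (-s) = I := by
    unfold wr
    apply Complex.ext
    · simp
    · simp; norm_num
  have e2 : wr s * wr (-s) = -1 := by
    unfold wr
    apply Complex.ext
    · simp only [mul_re, neg_re, one_re]
      nlinarith [h3, hs]
    · simp only [mul_im, neg_im, one_im]
      ring
  have e3 : (W - wr s) * (W - wr (-s)) * (W + I) =
      (W ^ 2 - (wr s + wr (-s)) * W + wr s * wr (-s)) * (W + I) := by ring
  rw [e3, e1, e2]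
  linear_combination W * Complex.I_sq

theorem sqrt3_bd : 1.7 < Real.sqrt 3 := by
  rw [Real.lt_sqrt (by norm_num)]
  norm_num

/-- geometry of the closed ball of radius `1/4` around a cube root of `i` -/
theorem wr_ball {s : ℝ} (hs : s = 1 ∨ s = -1) {W : ℂ} (hW : W ∈ closedBall (wr s) (1 / 4)) :
    1 / 4 ≤ W.im ∧ 0 < s * W.re ∧ ‖W‖ ≤ 2 ∧ (‖W - wr s‖ = 1 / 4 → 1 / 4 ≤ ‖W ^ 3 - I‖) := by
  rw [mem_closedBall, dist_eq_norm] at hW
  have h3 : Real.sqrt 3 ^ 2 = 3 := Real.sq_sqrt (by norm_num)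
  have hb := sqrt3_bd
  have hre := (Complex.abs_re_le_norm (W - wr s)).trans hW
  have him := (Complex.abs_im_le_norm (W - wr s)).trans hW
  rw [abs_le] at hre him
  have hs2 : s ^ 2 = 1 := by rcases hs with h | h <;> rw [h] <;> norm_num
  simp only [sub_re, sub_im, wr] at hre him
  have h1 : 1 / 4 ≤ W.im := by linarith [him.1]
  have h2 : 1 / 2 ≤ s * W.re := by
    rcases hs with h | h
    · subst h; nlinarith [hre.1]
    · subst h; nlinarith [hre.2]
  refine ⟨h1, by linarith, ?_, fun h => ?_⟩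
  · have e : W = (W - wr s) + wr s := by ring
    have h4 : ‖wr s‖ ≤ 1 := by
      rw [← sq_le_one_iff₀ (norm_nonneg _), Complex.sq_norm, normSq_apply]
      simp only [wr]
      nlinarith [h3, hs2]
    rw [e]
    refine (norm_add_le _ _).trans ?_
    linarith
  · rw [wr_cube hs2 W, norm_mul, norm_mul, h]
    have h5 : 1 ≤ ‖W - wr (-s)‖ := by
      have h6 := Complex.abs_re_le_norm (W - wr (-s))
      have h7 : 1 ≤ |(W - wr (-s)).re| := by
        simp only [sub_re, wr]
        rcases hs with h | h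
        · subst h
          rw [le_abs]; left
          nlinarith
        · subst h
          rw [le_abs]; right
          nlinarith
      linarith
    have h8 : 1 ≤ ‖W + I‖ := by
      have h9 := Complex.abs_im_le_norm (W + I)
      have h10 : 1 ≤ |(W + I).im| := by
        simp only [add_im, I_im]
        rw [le_abs]; left
        linarith
      linarith
    nlinarith [mul_le_mul h5 h8 (by norm_num) (by positivity)]

/-- no univalent harmonic map has a non-degenerate blow-up `A W³ + conj (B W³)` -/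
theorem no_tip {h g : ℂ → ℂ} (H : Pool.Agent.HU85.HarmU h g) {x A B : ℂ} (hx : ‖x‖ = 1)
    (hlim : ∀ Kc : Set ℂ, IsCompact Kc → Kc ⊆ HH → ∀ δ : ℝ, 0 < δ →
      ∃ V : ℝ, 1 ≤ V ∧ ∀ v : ℝ, V ≤ v → ∀ W ∈ Kc,
        ‖h (x * psi I (v * W)) / (v : ℂ) ^ 3 - A * W ^ 3‖ ≤ δ ∧
        ‖g (x * psi I (v * W)) / (v : ℂ) ^ 3 - B * W ^ 3‖ ≤ δ) : ‖A‖ = ‖B‖ := by
  by_contra hne
  set d : ℝ := |‖A‖ - ‖B‖| with hd
  have hd0 : 0 < d := abs_pos.2 (sub_ne_zero.2 hne)
  set Kc : Set ℂ := closedBall (wr 1) (1 / 4) ∪ closedBall (wr (-1)) (1 / 4) with hKc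
  have hKcc : IsCompact Kc := (isCompact_closedBall _ _).union (isCompact_closedBall _ _)
  have hsub : ∀ s : ℝ, (s = 1 ∨ s = -1) → closedBall (wr s) (1 / 4) ⊆ Kc := by
    rintro s (rfl | rfl)
    · exact subset_union_left
    · exact subset_union_right
  have hKH : Kc ⊆ HH := by
    rintro W (hW | hW)
    · have := (wr_ball (Or.inl rfl) hW).1
      show 0 < W.im
      linarith
    · have := (wr_ball (Or.inr rfl) hW).1
      show 0 < W.im
      linarith
  obtain ⟨V, hV1, hV⟩ := hlim Kc hKcc hKH (d / 32) (by positivity)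
  have hVp : 0 < V := by linarith
  have hVc : (V : ℂ) ≠ 0 := by exact_mod_cast hVp.ne'
  set T : ℂ → ℂ := fun w => A * w + conj (B * w) with hT
  have hTlow : ∀ w : ℂ, d * ‖w‖ ≤ ‖T w‖ := by
    intro w
    have h1 := abs_norm_sub_norm_le (A * w) (-(conj (B * w)))
    rw [norm_neg, RCLike.norm_conj, norm_mul, norm_mul, sub_neg_eq_add, ← sub_mul, abs_mul,
      abs_of_nonneg (norm_nonneg w)] at h1
    exact h1
  set f : ℂ → ℂ := fun W => h (x * psi I (V * W)) / (V : ℂ) ^ 3 +
    conj (g (x * psi I (V * W)) / (V : ℂ) ^ 3) with hf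
  have hfT : ∀ W ∈ Kc, ‖f W - T (W ^ 3)‖ ≤ d / 16 := by
    intro W hW
    obtain ⟨h1, h2⟩ := hV V le_rfl W hW
    have e : f W - T (W ^ 3) = (h (x * psi I (V * W)) / (V : ℂ) ^ 3 - A * W ^ 3) +
        conj (g (x * psi I (V * W)) / (V : ℂ) ^ 3 - B * W ^ 3) := by
      simp only [hf, hT, map_sub]
      ring
    rw [e]
    refine (norm_add_le _ _).trans ?_
    rw [RCLike.norm_conj]
    linarith
  -- the point is attained near both cube roots
  have hatt : ∀ s : ℝ, (s = 1 ∨ s = -1) → ∃ Y ∈ closedBall (wr s) (1 / 4), f Y = T I := by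
    intro s hs
    have hs2 : s ^ 2 = 1 := by rcases hs with h | h <;> rw [h] <;> norm_num
    have hvm : ∀ W ∈ HH, (V : ℂ) * W ∈ HH := fun W hW => smul_mem hVp hW
    have hdu : ∀ W ∈ HH, HasDerivAt (fun W => h (x * psi I (V * W)) / (V : ℂ) ^ 3)
        (deriv h (x * psi I (V * W)) *
          (x * ((I - conj I) / ((V : ℂ) * W - conj I) ^ 2)) * V / (V : ℂ) ^ 3) W := by
      intro W hW
      have h1 := zk_comp_hasDerivAt H.hd hx (hvm W hW)
      have h2 : HasDerivAt (fun W : ℂ => (V : ℂ) * W) V W := by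
        simpa using (hasDerivAt_id W).const_mul (V : ℂ)
      exact (h1.comp W h2).div_const _
    have hdw : ∀ W ∈ HH, HasDerivAt (fun W => g (x * psi I (V * W)) / (V : ℂ) ^ 3)
        (deriv g (x * psi I (V * W)) *
          (x * ((I - conj I) / ((V : ℂ) * W - conj I) ^ 2)) * V / (V : ℂ) ^ 3) W := by
      intro W hW
      have h1 := zk_comp_hasDerivAt H.gd hx (hvm W hW)
      have h2 : HasDerivAt (fun W : ℂ => (V : ℂ) * W) V W := by
        simpa using (hasDerivAt_id W).const_mul (V : ℂ)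
      exact (h1.comp W h2).div_const _
    have hBH : closedBall (wr s) (1 / 4) ⊆ HH := (hsub s hs).trans hKH
    have hcont : ContinuousOn (fun W => ‖f W - T I‖ ^ 2) (closedBall (wr s) (1 / 4)) := by
      intro W hW
      have h1 := (hdu W (hBH hW)).continuousAt
      have h2 := (hdw W (hBH hW)).continuousAt
      have h3 : ContinuousAt (fun W => ‖f W - T I‖ ^ 2) W := by
        have h4 : ContinuousAt f W := h1.add (Complex.continuous_conj.continuousAt.comp h2)
        exact ((h4.sub continuousAt_const).norm).pow 2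
      exact h3.continuousWithinAt
    obtain ⟨Y, hY, hYmin⟩ := (isCompact_closedBall (wr s) (1 / 4)).exists_isMinOn
      ⟨wr s, mem_closedBall_self (by norm_num)⟩ hcont
    refine ⟨Y, hY, ?_⟩
    have hc0 : ‖f (wr s) - T I‖ ≤ d / 16 := by
      have h1 := hfT (wr s) (hsub s hs (mem_closedBall_self (by norm_num)))
      have h2 : (wr s) ^ 3 = I := by
        have := wr_cube hs2 (wr s)
        rw [sub_self, zero_mul, zero_mul] at this
        linear_combination this
      rwa [h2] at h1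
    have hYle : ‖f Y - T I‖ ^ 2 ≤ (d / 16) ^ 2 := by
      have h1 := hYmin (mem_closedBall_self (x := wr s) (ε := 1 / 4) (by norm_num))
      have h2 : ‖f Y - T I‖ ^ 2 ≤ ‖f (wr s) - T I‖ ^ 2 := h1
      refine h2.trans ?_
      gcongr
    have hYlt : ‖Y - wr s‖ < 1 / 4 := by
      have hYle2 : ‖Y - wr s‖ ≤ 1 / 4 := by
        rw [mem_closedBall, dist_eq_norm] at hY
        exact hY
      refine lt_of_le_of_ne hYle2 fun heq => ?_
      have h1 := (wr_ball hs hY).2.2.2 heq
      have h2 := hTlow (Y ^ 3 - I)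
      have h3 : T (Y ^ 3 - I) = T (Y ^ 3) - T I := by
        simp only [hT, map_mul, map_sub]
        ring
      rw [h3] at h2
      have h4 : d / 4 ≤ ‖T (Y ^ 3) - T I‖ := by
        refine le_trans ?_ h2
        have := mul_le_mul_of_nonneg_left h1 hd0.le
        linarith
      have h5 := hfT Y (hsub s hs hY)
      have h6 : ‖T (Y ^ 3) - T I‖ ≤ ‖f Y - T (Y ^ 3)‖ + ‖f Y - T I‖ := by
        have e : T (Y ^ 3) - T I = -(f Y - T (Y ^ 3)) + (f Y - T I) := by ring
        rw [e]
        refine (norm_add_le _ _).trans ?_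
        rw [norm_neg]
      have h7 : ‖f Y - T I‖ ≤ d / 16 := by
        have := abs_le_of_sq_le_sq hYle (by positivity)
        exact (abs_le.1 this).2
      linarith
    have hYin : Y ∈ ball (wr s) (1 / 4) := by rw [mem_ball, dist_eq_norm]; exact hYlt
    have hloc : IsLocalMin (fun W => ‖h (x * psi I (V * W)) / (V : ℂ) ^ 3 +
        conj (g (x * psi I (V * W)) / (V : ℂ) ^ 3) - T I‖ ^ 2) Y := by
      filter_upwards [isOpen_ball.mem_nhds hYin] with W hW
      exact hYmin (ball_subset_closedBall hW)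
    have hYH : Y ∈ HH := hBH hY
    have hlt : ‖deriv g (x * psi I (V * Y)) *
          (x * ((I - conj I) / ((V : ℂ) * Y - conj I) ^ 2)) * V / (V : ℂ) ^ 3‖ <
        ‖deriv h (x * psi I (V * Y)) *
          (x * ((I - conj I) / ((V : ℂ) * Y - conj I) ^ 2)) * V / (V : ℂ) ^ 3‖ := by
      have h1 := H.lt _ (zk_mem hx (hvm Y hYH))
      have h2 : 0 < ‖(x * ((I - conj I) / ((V : ℂ) * Y - conj I) ^ 2)) * V / (V : ℂ) ^ 3‖ := by
        rw [norm_pos_iff]
        have hx0 : x ≠ 0 := by
          rintro rfl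
          simp at hx
        refine div_ne_zero (mul_ne_zero (mul_ne_zero hx0 (div_ne_zero (sub_conj_ne I_mem)
          (pow_ne_zero _ (den_ne I_mem (hvm Y hYH))))) hVc) (pow_ne_zero _ hVc)
      have e : ∀ c : ℂ, c * (x * ((I - conj I) / ((V : ℂ) * Y - conj I) ^ 2)) * V / (V : ℂ) ^ 3 =
          c * ((x * ((I - conj I) / ((V : ℂ) * Y - conj I) ^ 2)) * V / (V : ℂ) ^ 3) := by
        intro c
        ring
      rw [e, e, norm_mul, norm_mul]
      exact mul_lt_mul_of_pos_right h1 h2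
    exact min_zero (u := fun W => h (x * psi I (V * W)) / (V : ℂ) ^ 3)
      (w := fun W => g (x * psi I (V * W)) / (V : ℂ) ^ 3) (hdu Y hYH) (hdw Y hYH) hlt hloc
  obtain ⟨Y1, hY1, e1⟩ := hatt 1 (Or.inl rfl)
  obtain ⟨Y2, hY2, e2⟩ := hatt (-1) (Or.inr rfl)
  have hH1 : Y1 ∈ HH := hKH (hsub 1 (Or.inl rfl) hY1)
  have hH2 : Y2 ∈ HH := hKH (hsub (-1) (Or.inr rfl) hY2)
  have hinj := H.inj (zk_mem hx (smul_mem hVp hH1)) (zk_mem hx (smul_mem hVp hH2)) (by
    have h1 : f Y1 = f Y2 := by rw [e1, e2]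
    simp only [hf, map_div₀, map_pow, Complex.conj_ofReal] at h1
    have h2 : (V : ℂ) ^ 3 ≠ 0 := pow_ne_zero _ hVc
    rw [← add_div, ← add_div] at h1
    exact (div_left_inj' h2).1 h1)
  have hx0 : x ≠ 0 := by
    rintro rfl
    simp at hx
  have h3 := zk_psi_inj I_mem (smul_mem hVp hH1) (smul_mem hVp hH2) (mul_left_cancel₀ hx0 hinj)
  have h4 : Y1 = Y2 := mul_left_cancel₀ hVc h3
  have h5 := (wr_ball (Or.inl rfl) hY1).2.1
  have h6 := (wr_ball (Or.inr rfl) hY2).2.1
  rw [← h4] at h6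
  linarith

end Reg66
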